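import Mathlib

set_option autoImplicit false

/-! holomorphic solutions of polynomial systems with invertible Jacobian are algebraic -/

namespace Pool.Agent.Q235.GF

open scoped Matrix

noncomputable section

/-- the upper half plane -/
def Hp : Set ℂ := {z | 0 < z.im}

theorem Hp_open : IsOpen Hp := isOpen_lt continuous_const Complex.continuous_im

theorem Hp_convex : Convex ℝ Hp := convex_halfSpace_im_gt 0

theorem I_mem : Complex.I ∈ Hp := by simp [Hp]

/-- **algebraicity from an invertible Jacobian** -/
theorem alg_abs {A : Type} [Fintype A] [DecidableEq A] {R : Type} [CommRing R] [IsDomain R]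
    [CharZero R] {S : Type}
    [CommRing S] [IsDomain S] [Algebra R S] (hinj : Function.Injective (algebraMap R S))
    (x : A → S) (hgen : Function.Surjective (MvPolynomial.aeval x : MvPolynomial A R →ₐ[R] S))
    (a : A → A → R) (b : A → R)
    (hrel : ∀ j, x j * (algebraMap R S (b j) + ∑ k, algebraMap R S (a j k) * x k) + 1 = 0)
    (hdet : (1 - Matrix.of fun j k => x j ^ 2 * algebraMap R S (a j k) : Matrix A A S).det ≠ 0)
    (j : A) : IsAlgebraic R (x j) := by
  let L := FractionRing S
  have hι : Function.Injective (algebraMap S L) := IsFractionRing.injective S L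
  have htow : IsScalarTower R S L := inferInstance
  have hinjL : Function.Injective (algebraMap R L) := by
    rw [IsScalarTower.algebraMap_eq R S L]
    exact hι.comp hinj
  have hfaith : FaithfulSMul R L := (faithfulSMul_iff_algebraMap_injective _ _).2 hinjL
  let K := FractionRing R
  let _ : Algebra K L := FractionRing.liftAlgebra R L
  have htower : IsScalarTower R K L := FractionRing.isScalarTower_liftAlgebra _ _
  have hF : Algebra.FiniteType R S := Algebra.FiniteType.of_surjective (MvPolynomial.aeval x) hgen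
  have hE1 : Algebra.EssFiniteType R S := inferInstance
  have hE2 : Algebra.EssFiniteType S L :=
    Algebra.EssFiniteType.of_isLocalization L (nonZeroDivisors S)
  have hE3 : Algebra.EssFiniteType R L := Algebra.EssFiniteType.comp R S L
  have hE4 : Algebra.EssFiniteType K L := Algebra.EssFiniteType.of_comp R K L
  let D := KaehlerDifferential.D K L
  have hDR : ∀ r : R, D (algebraMap R L r) = 0 := by
    intro r
    rw [IsScalarTower.algebraMap_apply R K L]
    exact D.map_algebraMap _
  let ξ : A → L := fun j => algebraMap S L (x j)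
  have hrel' : ∀ j, ξ j * (algebraMap R L (b j) + ∑ k, algebraMap R L (a j k) * ξ k) + 1 = 0 := by
    intro j
    have h1 := congrArg (algebraMap S L) (hrel j)
    simp only [map_add, map_mul, map_sum, map_one, map_zero,
      ← IsScalarTower.algebraMap_apply R S L] at h1
    exact h1
  have hDrel : ∀ j, D (ξ j) = ξ j ^ 2 • ∑ k, algebraMap R L (a j k) • D (ξ k) := by
    intro j
    have h1 := congrArg D (hrel' j)
    rw [map_zero, map_add, D.map_one_eq_zero, add_zero, D.leibniz, map_add, map_sum, hDR,
      zero_add] at h1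
    have h4 : ∀ k, D (algebraMap R L (a j k) * ξ k) = algebraMap R L (a j k) • D (ξ k) := by
      intro k
      rw [D.leibniz, hDR, smul_zero, add_zero]
    rw [Finset.sum_congr rfl fun k _ => h4 k] at h1
    have h5 := congrArg (fun v => ξ j • v) h1
    simp only [smul_add, smul_zero, smul_smul] at h5
    have h6 : ξ j * (algebraMap R L (b j) + ∑ k, algebraMap R L (a j k) * ξ k) = -1 :=
      eq_neg_of_add_eq_zero_left (hrel' j)
    rw [h6, neg_smul, one_smul, ← pow_two] at h5
    exact (sub_eq_zero.1 (by rw [sub_eq_add_neg]; exact h5)).symm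
  let N : Matrix A A L := 1 - Matrix.of fun j k => ξ j ^ 2 * algebraMap R L (a j k)
  have hN : N.det ≠ 0 := by
    intro h0
    have h1 : N = (algebraMap S L).mapMatrix (1 - Matrix.of fun j k => x j ^ 2 *
        algebraMap R S (a j k)) := by
      ext i k
      simp only [N, RingHom.mapMatrix_apply, Matrix.map_apply, Matrix.sub_apply, Matrix.of_apply,
        map_sub, map_mul, map_pow, ξ, ← IsScalarTower.algebraMap_apply R S L]
      congr 1
      by_cases h : i = k
      · rw [h, Matrix.one_apply_eq, Matrix.one_apply_eq, map_one]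
      · rw [Matrix.one_apply_ne h, Matrix.one_apply_ne h, map_zero]
    rw [h1, ← RingHom.map_det] at h0
    exact hdet ((injective_iff_map_eq_zero _).1 hι _ h0)
  have hDξ : ∀ l, D (ξ l) = 0 := by
    intro l
    have h1 : ∀ j, ∑ k, N j k • D (ξ k) = 0 := by
      intro j
      have h2 : ∀ k, N j k • D (ξ k) = (1 : Matrix A A L) j k • D (ξ k) -
          ξ j ^ 2 • (algebraMap R L (a j k) • D (ξ k)) := by
        intro k
        simp only [N, Matrix.sub_apply, Matrix.of_apply]
        rw [sub_smul, smul_smul]
      rw [Finset.sum_congr rfl fun k _ => h2 k, Finset.sum_sub_distrib, ← Finset.smul_sum,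
        ← hDrel j, Finset.sum_eq_single j]
      · rw [Matrix.one_apply_eq, one_smul, sub_self]
      · intro k _ hk
        rw [Matrix.one_apply_ne hk.symm, zero_smul]
      · intro h; exact absurd (Finset.mem_univ j) h
    have h3 : ∑ j, N.adjugate l j • ∑ k, N j k • D (ξ k) = N.det • D (ξ l) := by
      simp only [Finset.smul_sum, smul_smul]
      rw [Finset.sum_comm]
      have h4 : ∀ k, ∑ j, (N.adjugate l j * N j k) • D (ξ k) =
          ((N.adjugate * N) l k) • D (ξ k) := by
        intro k
        rw [Matrix.mul_apply, Finset.sum_smul]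
      rw [Finset.sum_congr rfl fun k _ => h4 k, Matrix.adjugate_mul, Finset.sum_eq_single l]
      · rw [Matrix.smul_apply, Matrix.one_apply_eq, smul_eq_mul, mul_one]
      · intro k _ hk
        rw [Matrix.smul_apply, Matrix.one_apply_ne hk.symm, smul_zero, zero_smul]
      · intro h; exact absurd (Finset.mem_univ l) h
    rw [Finset.sum_eq_zero (fun j _ => by rw [h1 j, smul_zero])] at h3
    exact (smul_eq_zero.1 h3.symm).resolve_left hN
  have hDS : ∀ s : S, D (algebraMap S L s) = 0 := by
    intro s
    obtain ⟨p, rfl⟩ := hgen s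
    induction p using MvPolynomial.induction_on with
    | C p =>
      rw [MvPolynomial.aeval_C, ← IsScalarTower.algebraMap_apply R S L]
      exact hDR p
    | add p q hp hq => rw [map_add, map_add, map_add, hp, hq, add_zero]
    | mul_X p k hp =>
      rw [map_mul, MvPolynomial.aeval_X, map_mul, D.leibniz, hp,
        show D (algebraMap S L (x k)) = 0 from hDξ k, smul_zero, smul_zero, add_zero]
  have hD : ∀ y : L, D y = 0 := by
    intro y
    obtain ⟨s, t, ht, rfl⟩ := IsFractionRing.div_surjective (A := S) y
    have hb0 : algebraMap S L t ≠ 0 := by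
      intro h
      exact nonZeroDivisors.ne_zero ht ((injective_iff_map_eq_zero _).1 hι _ h)
    have h1 : D (algebraMap S L t * (algebraMap S L s / algebraMap S L t)) =
        D (algebraMap S L s) := by
      congr 1
      exact mul_div_cancel₀ _ hb0
    rw [D.leibniz, hDS, hDS, smul_zero, add_zero] at h1
    exact (smul_eq_zero.1 h1).resolve_left hb0
  have hsub : Subsingleton (Ω[L⁄K]) := by
    rw [← Submodule.subsingleton_iff L, ← subsingleton_iff_bot_eq_top,
      ← KaehlerDifferential.span_range_derivation K L, eq_comm, Submodule.span_eq_bot]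
    rintro _ ⟨x, rfl⟩
    exact hD x
  have hunr : Algebra.FormallyUnramified K L := (Algebra.formallyUnramified_iff K L).2 hsub
  have hsep : Algebra.IsSeparable K L := (Algebra.FormallyUnramified.iff_isSeparable K L).1 hunr
  have halg : IsAlgebraic K (ξ j) := (Algebra.IsSeparable.isIntegral K (ξ j)).isAlgebraic
  have halg2 : IsAlgebraic R (ξ j) := (IsFractionRing.isAlgebraic_iff R K L).2 halg
  exact (isAlgebraic_algebraMap_iff hι).1 halg2

variable {A : Type} [Fintype A] [DecidableEq A]

/-- evaluation at `(z, Γ(z))` -/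
def evz (Γ : A → ℂ → ℂ) (z : ℂ) : MvPolynomial A (Polynomial ℂ) →+* ℂ :=
  MvPolynomial.eval₂Hom (Polynomial.evalRingHom z) (fun j => Γ j z)

/-- the relations -/
def pp (Γ : A → ℂ → ℂ) : Ideal (MvPolynomial A (Polynomial ℂ)) :=
  ⨅ z : Hp, RingHom.ker (evz Γ z)

omit [Fintype A] [DecidableEq A] in
theorem mem_pp {Γ : A → ℂ → ℂ} {b : MvPolynomial A (Polynomial ℂ)} :
    b ∈ pp Γ ↔ ∀ z ∈ Hp, evz Γ z b = 0 := by
  unfold pp
  rw [Submodule.mem_iInf]
  constructor
  · intro h z hz
    exact h ⟨z, hz⟩
  · intro h z
    exact h z z.2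

omit [Fintype A] [DecidableEq A] in
theorem evz_ana {Γ : A → ℂ → ℂ} (hΓ : ∀ j, AnalyticOnNhd ℂ (Γ j) Hp)
    (b : MvPolynomial A (Polynomial ℂ)) : AnalyticOnNhd ℂ (fun z => evz Γ z b) Hp := by
  induction b using MvPolynomial.induction_on with
  | C p =>
    have : (fun z => evz Γ z (MvPolynomial.C p)) = fun z => p.eval z := by
      funext z
      simp [evz]
    rw [this]
    exact p.differentiable.differentiableOn.analyticOnNhd Hp_open
  | add p q hp hq =>
    have : (fun z => evz Γ z (p + q)) = fun z => evz Γ z p + evz Γ z q := by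
      funext z
      exact map_add _ _ _
    rw [this]
    exact hp.add hq
  | mul_X p j hp =>
    have : (fun z => evz Γ z (p * MvPolynomial.X j)) = fun z => evz Γ z p * Γ j z := by
      funext z
      rw [map_mul]
      congr 1
      simp [evz]
    rw [this]
    exact hp.mul (hΓ j)

omit [Fintype A] [DecidableEq A] in
theorem pp_prime {Γ : A → ℂ → ℂ} (hΓ : ∀ j, AnalyticOnNhd ℂ (Γ j) Hp) : (pp Γ).IsPrime := by
  refine ⟨?_, ?_⟩
  · intro h
    have h1 : (1 : MvPolynomial A (Polynomial ℂ)) ∈ pp Γ := by rw [h]; trivial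
    have h2 := mem_pp.1 h1 _ I_mem
    rw [map_one] at h2
    exact one_ne_zero h2
  · intro a b hab
    rw [mem_pp] at hab
    rcases (evz_ana hΓ a).eq_zero_or_eq_zero_of_mul_eq_zero (evz_ana hΓ b) (fun z hz => by
      rw [← map_mul]; exact hab z hz) Hp_convex.isPreconnected with h | h
    · exact Or.inl (mem_pp.2 h)
    · exact Or.inr (mem_pp.2 h)

theorem algebraic (μ : A → A → ℂ) (w : A → ℂ) (Γ : A → ℂ → ℂ)
    (hΓ : ∀ j, AnalyticOnNhd ℂ (Γ j) Hp)
    (hsys : ∀ j, ∀ z ∈ Hp, Γ j z * (z - w j + ∑ k, μ j k * Γ k z) + 1 = 0)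
    (hdet : ∃ z ∈ Hp, (1 - Matrix.of fun j k => Γ j z ^ 2 * μ j k : Matrix A A ℂ).det ≠ 0)
    (j : A) : ∃ P : Polynomial (Polynomial ℂ), P ≠ 0 ∧
      ∀ z ∈ Hp, (P.map (Polynomial.evalRingHom z)).eval (Γ j z) = 0 := by
  have hprime := pp_prime hΓ
  have hdom : IsDomain (MvPolynomial A (Polynomial ℂ) ⧸ pp Γ) := Ideal.Quotient.isDomain _
  have hinj : Function.Injective (algebraMap (Polynomial ℂ)
      (MvPolynomial A (Polynomial ℂ) ⧸ pp Γ)) := by
    rw [injective_iff_map_eq_zero]
    intro p hp
    have h1 : algebraMap (Polynomial ℂ) (MvPolynomial A (Polynomial ℂ) ⧸ pp Γ) p =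
        Ideal.Quotient.mk (pp Γ) (MvPolynomial.C p) := rfl
    rw [h1, Ideal.Quotient.eq_zero_iff_mem, mem_pp] at hp
    have h3 : ∀ z ∈ Hp, p.eval z = 0 := by
      intro z hz
      have := hp z hz
      simpa [evz] using this
    refine Polynomial.eq_zero_of_infinite_isRoot p (Set.Infinite.mono (s := Hp) ?_ ?_)
    · intro z hz
      exact h3 z hz
    · exact (infinite_of_mem_nhds Complex.I (Hp_open.mem_nhds I_mem))
  have haev : ∀ p : MvPolynomial A (Polynomial ℂ),
      MvPolynomial.aeval (fun j => Ideal.Quotient.mk (pp Γ) (MvPolynomial.X j)) p =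
        Ideal.Quotient.mk (pp Γ) p := by
    intro p
    have : (MvPolynomial.aeval (fun j => Ideal.Quotient.mk (pp Γ) (MvPolynomial.X j)) :
        MvPolynomial A (Polynomial ℂ) →ₐ[Polynomial ℂ] _) = Ideal.Quotient.mkₐ (Polynomial ℂ) (pp Γ) := by
      apply MvPolynomial.algHom_ext
      intro i
      rw [MvPolynomial.aeval_X]
      rfl
    rw [this]
    rfl
  have key := alg_abs hinj (fun j => Ideal.Quotient.mk (pp Γ) (MvPolynomial.X j)) (fun s => by
      obtain ⟨p, rfl⟩ := Ideal.Quotient.mk_surjective s
      exact ⟨p, haev p⟩) (fun j k => Polynomial.C (μ j k)) (fun j => Polynomial.X - Polynomial.C (w j))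
    (by
      intro j
      have h1 : Ideal.Quotient.mk (pp Γ) (MvPolynomial.X j * (MvPolynomial.C (Polynomial.X -
          Polynomial.C (w j)) + ∑ k, MvPolynomial.C (Polynomial.C (μ j k)) * MvPolynomial.X k) + 1)
          = 0 := by
        rw [Ideal.Quotient.eq_zero_iff_mem, mem_pp]
        intro z hz
        have := hsys j z hz
        simpa [evz] using this
      rw [map_add, map_mul, map_add, map_sum, map_one] at h1
      simp only [map_mul] at h1
      exact h1)
    (by
      intro h0
      have h1 : (1 - Matrix.of fun j k => (Ideal.Quotient.mk (pp Γ) (MvPolynomial.X j)) ^ 2 *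
          algebraMap (Polynomial ℂ) (MvPolynomial A (Polynomial ℂ) ⧸ pp Γ) (Polynomial.C (μ j k))) =
          (Ideal.Quotient.mk (pp Γ)).mapMatrix (1 - Matrix.of fun j k => MvPolynomial.X j ^ 2 *
          MvPolynomial.C (Polynomial.C (μ j k))) := by
        ext i k
        simp only [RingHom.mapMatrix_apply, Matrix.map_apply, Matrix.sub_apply, Matrix.of_apply,
          map_sub, map_mul, map_pow]
        congr 1
        by_cases h : i = k
        · rw [h, Matrix.one_apply_eq, Matrix.one_apply_eq, map_one]
        · rw [Matrix.one_apply_ne h, Matrix.one_apply_ne h, map_zero]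
      rw [h1, ← RingHom.map_det, Ideal.Quotient.eq_zero_iff_mem, mem_pp] at h0
      obtain ⟨z, hz, hz2⟩ := hdet
      apply hz2
      have h2 := h0 z hz
      rw [RingHom.map_det] at h2
      rw [← h2]
      congr 1
      ext i k
      simp only [RingHom.mapMatrix_apply, Matrix.map_apply, Matrix.sub_apply, Matrix.of_apply,
        map_sub, map_mul, map_pow]
      congr 1
      · by_cases h : i = k
        · rw [h, Matrix.one_apply_eq, Matrix.one_apply_eq, map_one]
        · rw [Matrix.one_apply_ne h, Matrix.one_apply_ne h, map_zero]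
      · simp [evz]) j
  obtain ⟨P, hP0, hP⟩ := key
  refine ⟨P, hP0, fun z hz => ?_⟩
  have h1 : Polynomial.aeval (Ideal.Quotient.mk (pp Γ) (MvPolynomial.X j)) P =
      Ideal.Quotient.mk (pp Γ) (Polynomial.eval₂ MvPolynomial.C (MvPolynomial.X j) P) := by
    rw [Polynomial.hom_eval₂, Polynomial.aeval_def]
    rfl
  rw [h1, Ideal.Quotient.eq_zero_iff_mem, mem_pp] at hP
  have h2 := hP z hz
  rw [Polynomial.hom_eval₂] at h2
  rw [Polynomial.eval_map, ← h2]
  congr 1
  · ext p
    · simp [evz]
    · simp [evz]
  · simp [evz]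

end

end Pool.Agent.Q235.GF
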