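import Mathlib
import Pool.Agent.Q235.GF.Alg

set_option autoImplicit false

/-! bounded algebraic functions on the upper half plane have boundary values everywhere -/

namespace Pool.Agent.Q235.GF

open Filter Topology Polynomial

noncomputable section

/-- `f` satisfies the polynomial equation `P` -/
def Rel (f : ℂ → ℂ) (P : ℂ[X][X]) : Prop := ∀ z ∈ Hp, (P.map (evalRingHom z)).eval (f z) = 0

theorem reduce (f : ℂ → ℂ) (x₀ : ℂ) (hx₀ : x₀ ∉ Hp) (i : ℕ) : ∀ n, ∀ P : ℂ[X][X], P.coeff i ≠ 0 →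
    (P.coeff i).natDegree ≤ n → Rel f P → ∃ Q : ℂ[X][X], Q.map (evalRingHom x₀) ≠ 0 ∧ Rel f Q := by
  intro n
  induction n with
  | zero =>
    intro P hP hn hrel
    refine ⟨P, ?_, hrel⟩
    intro h0
    have h1 : (P.coeff i).eval x₀ = 0 := by
      have := congrArg (fun p => p.coeff i) h0
      simpa [coeff_map] using this
    have h2 : P.coeff i = C ((P.coeff i).coeff 0) :=
      eq_C_of_natDegree_eq_zero (Nat.le_zero.1 hn)
    rw [h2, eval_C] at h1
    rw [h2, h1, C_0] at hP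
    exact hP rfl
  | succ n ih =>
    intro P hP hn hrel
    by_cases h0 : P.map (evalRingHom x₀) = 0
    · have hdvd : C (X - C x₀) ∣ P := by
        rw [C_dvd_iff_dvd_coeff]
        intro k
        rw [dvd_iff_isRoot]
        have := congrArg (fun p => p.coeff k) h0
        simpa [coeff_map] using this
      obtain ⟨Q, rfl⟩ := hdvd
      have hne : (X - C x₀ : ℂ[X]) ≠ 0 := X_sub_C_ne_zero x₀
      rw [coeff_C_mul] at hP hn
      have hQ : Q.coeff i ≠ 0 := right_ne_zero_of_mul hP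
      rw [natDegree_mul hne hQ, natDegree_X_sub_C] at hn
      refine ih Q hQ (by omega) ?_
      intro z hz
      have h1 := hrel z hz
      rw [Polynomial.map_mul, eval_mul, map_C, eval_C] at h1
      have h2 : evalRingHom z (X - C x₀) ≠ 0 := by
        show (X - C x₀).eval z ≠ 0
        rw [eval_sub, eval_X, eval_C]
        intro h
        exact hx₀ (by rw [← sub_eq_zero.1 h]; exact hz)
      exact (mul_eq_zero.1 h1).resolve_left h2
    · exact ⟨P, h0, hrel⟩

theorem F_cont (Q : ℂ[X][X]) : Continuous fun p : ℂ × ℂ => (Q.map (evalRingHom p.1)).eval p.2 := by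
  have h : (fun p : ℂ × ℂ => (Q.map (evalRingHom p.1)).eval p.2) =
      fun p => ∑ i ∈ Q.support, (Q.coeff i).eval p.1 * p.2 ^ i := by
    funext p
    rw [eval_map, eval₂_eq_sum, Polynomial.sum]
    rfl
  rw [h]
  refine continuous_finsetSum _ fun i _ => ?_
  exact ((Q.coeff i).continuous.comp continuous_fst).mul (continuous_snd.pow i)

theorem clu (f : ℂ → ℂ) (hf : ContinuousOn f Hp) (B : ℝ) (hB : ∀ z ∈ Hp, ‖f z‖ ≤ B)
    (P : ℂ[X][X]) (hP : P ≠ 0) (hrel : Rel f P) (x₀ : ℂ) (hx : x₀.im = 0) :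
    ∃ L, Tendsto f (𝓝[Hp] x₀) (𝓝 L) := by
  have hx₀ : x₀ ∉ Hp := by
    intro h
    have : 0 < x₀.im := h
    rw [hx] at this
    exact lt_irrefl _ this
  obtain ⟨i, hi⟩ : ∃ i, P.coeff i ≠ 0 := by
    by_contra h
    push Not at h
    exact hP (Polynomial.ext fun n => by rw [h n, coeff_zero])
  obtain ⟨Q, hQ, hQrel⟩ := reduce f x₀ hx₀ i _ P hi le_rfl hrel
  have hcl : x₀ ∈ closure Hp := by
    rw [Metric.mem_closure_iff]
    intro ε hε
    refine ⟨x₀ + (ε / 2 : ℝ) * Complex.I, ?_, ?_⟩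
    · show 0 < (x₀ + (ε / 2 : ℝ) * Complex.I).im
      simp [hx]
      exact hε
    · rw [dist_eq_norm]
      have : x₀ - (x₀ + (ε / 2 : ℝ) * Complex.I) = -((ε / 2 : ℝ) * Complex.I) := by ring
      rw [this, norm_neg, norm_mul, Complex.norm_I, mul_one, Complex.norm_real, Real.norm_eq_abs,
        abs_of_pos (by linarith)]
      linarith
  have hne : (𝓝[Hp] x₀).NeBot := mem_closure_iff_nhdsWithin_neBot.1 hcl
  have hself : ∀ᶠ z in 𝓝[Hp] x₀, z ∈ Hp := self_mem_nhdsWithin
  obtain ⟨r, -, hr⟩ := (isCompact_closedBall (0 : ℂ) B) (f := map f (𝓝[Hp] x₀)) (by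
    rw [le_principal_iff, mem_map]
    filter_upwards [hself] with z hz
    simpa using hB z hz)
  refine ⟨r, ?_⟩
  have hFc := F_cont Q
  -- the finite set of exceptional radii
  have hfin : {ε : ℝ | ∃ w ∈ (Q.map (evalRingHom x₀)).roots.toFinset, dist w r = ε}.Finite := by
    have : {ε : ℝ | ∃ w ∈ (Q.map (evalRingHom x₀)).roots.toFinset, dist w r = ε} =
        (fun w => dist w r) '' ((Q.map (evalRingHom x₀)).roots.toFinset : Set ℂ) := by
      ext ε; simp
    rw [this]
    exact (Finset.finite_toSet _).image _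
  rw [Metric.tendsto_nhds]
  intro ε₀ hε₀
  obtain ⟨ε, hε, hε2⟩ := ((Set.Ioo_infinite hε₀).sdiff hfin).nonempty
  have hsph : ∀ w ∈ Metric.sphere r ε, (Q.map (evalRingHom x₀)).eval w ≠ 0 := by
    intro w hw h0
    apply hε2
    refine ⟨w, ?_, hw⟩
    rw [Multiset.mem_toFinset, mem_roots hQ]
    exact h0
  have hev : ∀ᶠ z in 𝓝 x₀, ∀ w ∈ Metric.sphere r ε, (Q.map (evalRingHom z)).eval w ≠ 0 := by
    apply (isCompact_sphere r ε).eventually_forall_of_forall_eventually
    intro w hw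
    exact hFc.continuousAt.eventually_ne (hsph w hw)
  obtain ⟨δ, hδ, hball⟩ := Metric.eventually_nhds_iff_ball.1 hev
  have hpre : IsPreconnected (f '' (Hp ∩ Metric.ball x₀ δ)) :=
    ((Hp_convex.inter (convex_ball x₀ δ)).isPreconnected).image f
      (hf.mono Set.inter_subset_left)
  have hsub : f '' (Hp ∩ Metric.ball x₀ δ) ⊆ Metric.ball r ε ∪ (Metric.closedBall r ε)ᶜ := by
    rintro _ ⟨z, ⟨hz1, hz2⟩, rfl⟩
    rcases lt_trichotomy (dist (f z) r) ε with h | h | h
    · exact Or.inl h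
    · exact absurd (hQrel z hz1) (hball z hz2 (f z) h)
    · right
      simpa using h
  have hmem : ∀ᶠ z in 𝓝[Hp] x₀, z ∈ Hp ∩ Metric.ball x₀ δ := by
    filter_upwards [hself, nhdsWithin_le_nhds (Metric.ball_mem_nhds x₀ hδ)] with z h1 h2
    exact ⟨h1, h2⟩
  have hfreq : ∃ᶠ z in 𝓝[Hp] x₀, f z ∈ Metric.ball r ε := by
    rw [clusterPt_iff_frequently] at hr
    have := hr _ (Metric.ball_mem_nhds r hε.1)
    rwa [frequently_map] at this
  obtain ⟨z, hz1, hz2⟩ := (hfreq.and_eventually hmem).exists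
  have hall := hpre.subset_left_of_subset_union Metric.isOpen_ball
    Metric.isClosed_closedBall.isOpen_compl (by
      rw [Set.disjoint_left]
      intro w hw hw2
      exact hw2 (Metric.ball_subset_closedBall hw)) hsub ⟨f z, ⟨z, hz2, rfl⟩, hz1⟩
  filter_upwards [hmem] with z' hz'
  have h1 : dist (f z') r < ε := hall ⟨z', hz', rfl⟩
  exact h1.trans hε.2

end

end Pool.Agent.Q235.GF
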