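import Mathlib
import Pool.Agent.Q235.GF.Alg

set_option autoImplicit false

/-! hermitian operators on trees -/

namespace Pool.Agent.Q235.GF

open scoped ENNReal ComplexConjugate InnerProductSpace

noncomputable section

/-- `ℓ²(V)` -/
abbrev HV (V : Type) := lp (fun _ : V => ℂ) 2

variable {V : Type}

theorem two_pos' : 0 < (2 : ℝ≥0∞).toReal := by norm_num

theorem summable_sq (f : HV V) : Summable fun v => ‖f v‖ ^ 2 := by
  have := (lp.memℓp f).summable two_pos'
  simpa using this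

theorem norm_sq (f : HV V) : ‖f‖ ^ 2 = ∑' v, ‖f v‖ ^ 2 := by
  have := lp.norm_rpow_eq_tsum two_pos' f
  simpa using this

theorem memH {f : V → ℂ} (hf : Summable fun v => ‖f v‖ ^ 2) : Memℓp f 2 := by
  refine memℓp_gen ?_
  simpa using hf

theorem extH {f g : HV V} (h : ∀ v, f v = g v) : f = g := lp.ext (funext h)

/-- build an element -/
def mk (f : V → ℂ) (hf : Summable fun v => ‖f v‖ ^ 2) : HV V := ⟨f, memH hf⟩

@[simp] theorem mk_apply (f : V → ℂ) (hf : Summable fun v => ‖f v‖ ^ 2) (v : V) :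
    mk f hf v = f v := rfl

/-- the combinatorial data -/
structure Dat (V : Type) where
  par : V → V
  ch : V → Finset V
  hpar : ∀ x, ∀ y ∈ ch x, par y = x
  d : ℕ
  hd : ∀ x, (ch x).card ≤ d

/-- the coefficients -/
structure Cf {V : Type} (D : Dat V) where
  c : V → ℂ
  w : V → ℝ
  C : ℝ
  hc : ∀ y, ‖c y‖ ≤ C
  hw : ∀ x, |w x| ≤ C
  hch : ∀ y, c y ≠ 0 → y ∈ D.ch (D.par y)

variable {D : Dat V}

theorem fin_bound (F : Cf D) (f : V → ℝ) (hf0 : ∀ x, 0 ≤ f x) (hf : Summable f) (s : Finset V) :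
    ∑ y ∈ s, ‖F.c y‖ ^ 2 * f (D.par y) ≤ F.C ^ 2 * D.d * ∑' x, f x := by
  classical
  have h1 : ∑ y ∈ s, ‖F.c y‖ ^ 2 * f (D.par y) =
      ∑ y ∈ s.filter (fun y => F.c y ≠ 0), ‖F.c y‖ ^ 2 * f (D.par y) := by
    rw [Finset.sum_filter]
    apply Finset.sum_congr rfl
    intro y _
    split_ifs with h
    · rfl
    · push Not at h
      rw [h]; simp
  have h2 : ∑ y ∈ s.filter (fun y => F.c y ≠ 0), ‖F.c y‖ ^ 2 * f (D.par y) ≤
      F.C ^ 2 * ∑ y ∈ s.filter (fun y => F.c y ≠ 0), f (D.par y) := by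
    rw [Finset.mul_sum]
    apply Finset.sum_le_sum
    intro y _
    apply mul_le_mul_of_nonneg_right _ (hf0 _)
    exact pow_le_pow_left₀ (norm_nonneg _) (F.hc y) 2
  have h3 : ∑ y ∈ s.filter (fun y => F.c y ≠ 0), f (D.par y) ≤ D.d * ∑' x, f x := by
    rw [Finset.sum_comp f D.par]
    calc ∑ b ∈ (s.filter fun y => F.c y ≠ 0).image D.par,
          ((s.filter fun y => F.c y ≠ 0).filter fun a => D.par a = b).card • f b
        ≤ ∑ b ∈ (s.filter fun y => F.c y ≠ 0).image D.par, (D.d : ℝ) * f b := by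
          apply Finset.sum_le_sum
          intro b _
          rw [nsmul_eq_mul]
          apply mul_le_mul_of_nonneg_right _ (hf0 _)
          have : ((s.filter fun y => F.c y ≠ 0).filter fun a => D.par a = b) ⊆ D.ch b := by
            intro y hy
            rw [Finset.mem_filter, Finset.mem_filter] at hy
            rw [← hy.2]
            exact F.hch y hy.1.2
          exact_mod_cast (Finset.card_le_card this).trans (D.hd b)
      _ = D.d * ∑ b ∈ (s.filter fun y => F.c y ≠ 0).image D.par, f b := by rw [Finset.mul_sum]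
      _ ≤ D.d * ∑' x, f x :=
          mul_le_mul_of_nonneg_left (hf.sum_le_tsum _ fun i _ => hf0 i) (Nat.cast_nonneg _)
  calc ∑ y ∈ s, ‖F.c y‖ ^ 2 * f (D.par y) ≤ F.C ^ 2 * (D.d * ∑' x, f x) := by
        rw [h1]
        exact h2.trans (mul_le_mul_of_nonneg_left h3 (sq_nonneg _))
    _ = _ := by ring

theorem down_summable (F : Cf D) (φ : HV V) : Summable fun y => ‖F.c y * φ (D.par y)‖ ^ 2 := by
  refine summable_of_sum_le (fun y => sq_nonneg _) (c := F.C ^ 2 * D.d * ∑' x, ‖φ x‖ ^ 2) ?_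
  intro s
  have := fin_bound F (fun x => ‖φ x‖ ^ 2) (fun x => sq_nonneg _) (summable_sq φ) s
  simpa only [norm_mul, mul_pow] using this

theorem C_nonneg [Nonempty V] (F : Cf D) : 0 ≤ F.C :=
  (norm_nonneg _).trans (F.hc (Classical.arbitrary V))

/-- the downward part -/
def down (F : Cf D) : HV V →L[ℂ] HV V :=
  LinearMap.mkContinuous
    { toFun := fun φ => mk (fun y => F.c y * φ (D.par y)) (down_summable F φ)
      map_add' := fun f g => extH fun v => by
        simp [mul_add]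
      map_smul' := fun a f => extH fun v => by
        simp only [mk_apply, lp.coeFn_smul, Pi.smul_apply, smul_eq_mul, RingHom.id_apply]
        ring }
    (|F.C| * Real.sqrt D.d) (fun φ => by
      apply le_of_sq_le_sq _ (by positivity)
      show ‖mk (fun y => F.c y * φ (D.par y)) (down_summable F φ)‖ ^ 2 ≤ _
      rw [norm_sq, mul_pow, mul_pow, sq_abs, Real.sq_sqrt (Nat.cast_nonneg _), norm_sq φ]
      apply Summable.tsum_le_of_sum_le (down_summable F φ)
      intro s
      have := fin_bound F (fun x => ‖φ x‖ ^ 2) (fun x => sq_nonneg _) (summable_sq φ) s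
      simpa only [norm_mul, mul_pow, mk_apply] using this)

theorem down_apply (F : Cf D) (φ : HV V) (y : V) : down F φ y = F.c y * φ (D.par y) := rfl

theorem mul_summable (F : Cf D) (φ : HV V) : Summable fun y => ‖(F.w y : ℂ) * φ y‖ ^ 2 := by
  refine Summable.of_nonneg_of_le (fun y => sq_nonneg _) (fun y => ?_)
    ((summable_sq φ).mul_left (F.C ^ 2))
  rw [norm_mul, mul_pow, Complex.norm_real]
  apply mul_le_mul_of_nonneg_right _ (sq_nonneg _)
  exact pow_le_pow_left₀ (norm_nonneg _) (F.hw y) 2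

/-- the diagonal part -/
def dia (F : Cf D) : HV V →L[ℂ] HV V :=
  LinearMap.mkContinuous
    { toFun := fun φ => mk (fun y => (F.w y : ℂ) * φ y) (mul_summable F φ)
      map_add' := fun f g => extH fun v => by
        simp [mul_add]
      map_smul' := fun a f => extH fun v => by
        simp only [mk_apply, lp.coeFn_smul, Pi.smul_apply, smul_eq_mul, RingHom.id_apply]
        ring }
    |F.C| (fun φ => by
      apply le_of_sq_le_sq _ (by positivity)
      show ‖mk (fun y => (F.w y : ℂ) * φ y) (mul_summable F φ)‖ ^ 2 ≤ _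
      rw [norm_sq, mul_pow, sq_abs, norm_sq φ, ← tsum_mul_left]
      refine Summable.tsum_le_tsum (fun y => ?_) (mul_summable F φ) ((summable_sq φ).mul_left _)
      rw [mk_apply, norm_mul, mul_pow, Complex.norm_real]
      apply mul_le_mul_of_nonneg_right _ (sq_nonneg _)
      exact pow_le_pow_left₀ (norm_nonneg _) (F.hw y) 2)

theorem dia_apply (F : Cf D) (φ : HV V) (y : V) : dia F φ y = (F.w y : ℂ) * φ y := rfl

/-- the basis vectors -/
def del (x : V) : HV V := @lp.single V (fun _ => ℂ) _ (Classical.decEq V) 2 x (1 : ℂ)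

theorem del_self (x : V) : del x x = (1 : ℂ) := by
  let _ := Classical.decEq V
  unfold del
  rw [lp.single_apply, Pi.single_eq_same]

theorem del_ne {x y : V} (h : y ≠ x) : del x y = (0 : ℂ) := by
  let _ := Classical.decEq V
  unfold del
  rw [lp.single_apply, Pi.single_eq_of_ne h]

theorem del_inner (x : V) (φ : HV V) : ⟪del x, φ⟫_ℂ = φ x := by
  let _ := Classical.decEq V
  unfold del
  rw [lp.inner_single_left]
  simp

theorem dia_sa (F : Cf D) : IsSelfAdjoint (dia F) := by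
  rw [ContinuousLinearMap.isSelfAdjoint_iff_isSymmetric]
  intro φ ψ
  show ⟪dia F φ, ψ⟫_ℂ = ⟪φ, dia F ψ⟫_ℂ
  rw [lp.inner_eq_tsum, lp.inner_eq_tsum]
  apply tsum_congr
  intro x
  rw [dia_apply, dia_apply, RCLike.inner_apply, RCLike.inner_apply, map_mul]
  simp only [Complex.conj_ofReal]
  ring

theorem up_apply (F : Cf D) (φ : HV V) (x : V) :
    ContinuousLinearMap.adjoint (down F) φ x = ∑ y ∈ D.ch x, conj (F.c y) * φ y := by
  classical
  rw [← del_inner x, ContinuousLinearMap.adjoint_inner_right, lp.inner_eq_tsum,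
    tsum_eq_sum (s := D.ch x)]
  · apply Finset.sum_congr rfl
    intro y hy
    rw [down_apply, RCLike.inner_apply, D.hpar x y hy, del_self, mul_one, mul_comm]
  · intro y hy
    rw [down_apply, RCLike.inner_apply]
    by_cases h : D.par y = x
    · by_cases hc : F.c y = 0
      · rw [hc]; simp
      · exact absurd (h ▸ F.hch y hc) hy
    · rw [del_ne h, mul_zero, map_zero, mul_zero]

/-- the operator -/
def TT (F : Cf D) : HV V →L[ℂ] HV V := down F + star (down F) + dia F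

theorem TT_sa (F : Cf D) : IsSelfAdjoint (TT F) := (IsSelfAdjoint.add_star_self _).add (dia_sa F)

theorem TT_apply (F : Cf D) (φ : HV V) (x : V) :
    TT F φ x = F.c x * φ (D.par x) + ∑ y ∈ D.ch x, conj (F.c y) * φ y + F.w x * φ x := by
  unfold TT
  rw [ContinuousLinearMap.star_eq_adjoint]
  show down F φ x + ContinuousLinearMap.adjoint (down F) φ x + dia F φ x = _
  rw [up_apply, down_apply, dia_apply]

/-- the resolvent `(T - z)⁻¹` -/
def RR (F : Cf D) (z : ℂ) : HV V →L[ℂ] HV V := -resolvent (TT F) z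

theorem mem_res (F : Cf D) {z : ℂ} (hz : z.im ≠ 0) : z ∈ resolventSet ℂ (TT F) := by
  by_contra h
  have h1 : z ∈ spectrum ℂ (TT F) := h
  have h2 := (TT_sa F).mem_spectrum_eq_re h1
  apply hz
  rw [h2, Complex.ofReal_im]

theorem RR_left (F : Cf D) {z : ℂ} (hz : z.im ≠ 0) (φ : HV V) :
    TT F (RR F z φ) - z • RR F z φ = φ := by
  have h := mem_res F hz
  rw [spectrum.mem_resolventSet_iff] at h
  have h1 := Ring.mul_inverse_cancel _ h
  have h2 := congrArg (fun A : HV V →L[ℂ] HV V => A φ) h1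
  have h3 : (algebraMap ℂ (HV V →L[ℂ] HV V) z - TT F) (resolvent (TT F) z φ) = φ := h2
  have h4 : RR F z φ = -(resolvent (TT F) z φ) := rfl
  have h5 : (algebraMap ℂ (HV V →L[ℂ] HV V) z - TT F) (resolvent (TT F) z φ) =
      z • resolvent (TT F) z φ - TT F (resolvent (TT F) z φ) := rfl
  rw [h5] at h3
  rw [h4, map_neg, smul_neg, sub_neg_eq_add, neg_add_eq_sub]
  exact h3

theorem RR_right (F : Cf D) {z : ℂ} (hz : z.im ≠ 0) (φ : HV V) :
    RR F z (TT F φ - z • φ) = φ := by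
  have h := mem_res F hz
  rw [spectrum.mem_resolventSet_iff] at h
  have h1 := Ring.inverse_mul_cancel _ h
  have h2 := congrArg (fun A : HV V →L[ℂ] HV V => A φ) h1
  have h3 : resolvent (TT F) z ((algebraMap ℂ (HV V →L[ℂ] HV V) z - TT F) φ) = φ := h2
  have h4 : (algebraMap ℂ (HV V →L[ℂ] HV V) z - TT F) φ = z • φ - TT F φ := rfl
  rw [h4] at h3
  have h5 : RR F z (TT F φ - z • φ) = -(resolvent (TT F) z (TT F φ - z • φ)) := rfl
  rw [h5, ← map_neg, neg_sub]
  exact h3

/-- the diagonal Green function -/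
def gr (F : Cf D) (x : V) (z : ℂ) : ℂ := RR F z (del x) x

theorem gr_ana (F : Cf D) (x : V) : AnalyticOnNhd ℂ (gr F x) Hp := by
  apply DifferentiableOn.analyticOnNhd _ Hp_open
  intro z hz
  have hz' : z.im ≠ 0 := ne_of_gt hz
  have h1 := spectrum.hasDerivAt_resolvent_const_left (mem_res F hz')
  let L : (HV V →L[ℂ] HV V) →L[ℂ] ℂ :=
    (innerSL ℂ (del x)).comp (ContinuousLinearMap.apply ℂ (HV V) (del x))
  have h2 : HasDerivAt (fun z => L (resolvent (TT F) z)) _ z := L.hasFDerivAt.comp_hasDerivAt z h1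
  have h3 : gr F x = fun z => -L (resolvent (TT F) z) := by
    funext z
    show (-(resolvent (TT F) z (del x)) : HV V) x = _
    rw [lp.coeFn_neg, Pi.neg_apply, ← del_inner x]
    rfl
  rw [h3]
  exact h2.neg.differentiableAt.differentiableWithinAt

theorem gr_eq_inner (F : Cf D) (x : V) (z : ℂ) : gr F x z = ⟪del x, RR F z (del x)⟫_ℂ :=
  (del_inner x _).symm

theorem TT_im (F : Cf D) (φ : HV V) : (⟪φ, TT F φ⟫_ℂ).im = 0 := by
  have h1 := (ContinuousLinearMap.isSelfAdjoint_iff_isSymmetric.1 (TT_sa F)) φ φ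
  have h2 : ⟪TT F φ, φ⟫_ℂ = ⟪φ, TT F φ⟫_ℂ := h1
  have h3 := inner_conj_symm (𝕜 := ℂ) φ (TT F φ)
  rw [h2] at h3
  have h4 := congrArg Complex.im h3
  rw [Complex.conj_im] at h4
  linarith

theorem gr_im (F : Cf D) (x : V) {z : ℂ} (hz : z.im ≠ 0) :
    (gr F x z).im = z.im * ‖RR F z (del x)‖ ^ 2 := by
  set ψ := RR F z (del x) with hψ
  have h1 : TT F ψ - z • ψ = del x := RR_left F hz (del x)
  have h2 : gr F x z = ⟪TT F ψ - z • ψ, ψ⟫_ℂ := by rw [h1, gr_eq_inner]
  rw [h2, inner_sub_left, inner_smul_left, Complex.sub_im]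
  have h3 : (⟪TT F ψ, ψ⟫_ℂ).im = 0 := by
    have h4 := (ContinuousLinearMap.isSelfAdjoint_iff_isSymmetric.1 (TT_sa F)) ψ ψ
    have h5 : ⟪TT F ψ, ψ⟫_ℂ = ⟪ψ, TT F ψ⟫_ℂ := h4
    rw [h5, TT_im]
  rw [h3, inner_self_eq_norm_sq_to_K, zero_sub]
  have h6 : (conj z * ((‖ψ‖ : ℂ)) ^ 2).im = -(z.im * ‖ψ‖ ^ 2) := by
    rw [← Complex.ofReal_pow, Complex.mul_im, Complex.ofReal_im, Complex.ofReal_re, Complex.conj_im]
    ring
  have h7 : ((‖ψ‖ : ℂ)) = ((‖ψ‖ : ℝ) : ℂ) := rfl
  show -(conj z * ((‖ψ‖ : ℂ)) ^ 2).im = _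
  rw [h6, neg_neg]

theorem RR_norm (F : Cf D) (x : V) {z : ℂ} (hz : z ∈ Hp) : ‖RR F z (del x)‖ ≤ 1 / z.im := by
  have hz0 : 0 < z.im := hz
  have h1 := gr_im F x (ne_of_gt hz0)
  have h2 : (gr F x z).im ≤ ‖RR F z (del x)‖ :=
    (Complex.im_le_norm _).trans (by
      show ‖(RR F z (del x) : HV V) x‖ ≤ _
      exact lp.norm_apply_le_norm (by norm_num) _ x)
  rw [h1] at h2
  rw [le_div_iff₀ hz0]
  by_cases h0 : ‖RR F z (del x)‖ = 0
  · rw [h0]; linarith
  · have hpos : 0 < ‖RR F z (del x)‖ := lt_of_le_of_ne (norm_nonneg _) (Ne.symm h0)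
    nlinarith

theorem gr_norm (F : Cf D) (x : V) {z : ℂ} (hz : z ∈ Hp) : ‖gr F x z‖ ≤ 1 / z.im :=
  (lp.norm_apply_le_norm (by norm_num) (RR F z (del x)) x).trans (RR_norm F x hz)

theorem RR_ne (F : Cf D) (x : V) {z : ℂ} (hz : z.im ≠ 0) : RR F z (del x) ≠ 0 := by
  intro h
  have h1 := RR_left F hz (del x)
  rw [h, map_zero, smul_zero, sub_zero] at h1
  have h2 := congrArg (fun f : HV V => f x) h1
  simp only [del_self] at h2
  exact zero_ne_one h2

theorem gr_pos (F : Cf D) (x : V) {z : ℂ} (hz : z ∈ Hp) : 0 < (gr F x z).im := by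
  have hz0 : 0 < z.im := hz
  rw [gr_im F x (ne_of_gt hz0)]
  have := norm_pos_iff.2 (RR_ne F x (ne_of_gt hz0))
  positivity

theorem RR_conj (F : Cf D) (x y : V) (z : ℂ) (hz : z.im ≠ 0) :
    RR F z (del x) y = conj (RR F (conj z) (del y) x) := by
  have hz' : (conj z).im ≠ 0 := by rw [Complex.conj_im]; exact neg_ne_zero.2 hz
  set ψ := RR F z (del x) with hψ
  set φ := RR F (conj z) (del y) with hφ
  have h1 : TT F ψ - z • ψ = del x := RR_left F hz (del x)
  have h2 : TT F φ - (conj z) • φ = del y := RR_left F hz' (del y)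
  have h3 : ⟪TT F φ - (conj z) • φ, ψ⟫_ℂ = ⟪φ, TT F ψ - z • ψ⟫_ℂ := by
    rw [inner_sub_left, inner_sub_right, inner_smul_left, inner_smul_right]
    have h4 : ⟪TT F φ, ψ⟫_ℂ = ⟪φ, TT F ψ⟫_ℂ :=
      (ContinuousLinearMap.isSelfAdjoint_iff_isSymmetric.1 (TT_sa F)) φ ψ
    rw [h4, Complex.conj_conj]
  rw [h1, h2, del_inner, ← inner_conj_symm, del_inner] at h3
  exact h3

end

end Pool.Agent.Q235.GF
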