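import Mathlib
import Pool.Agent.Q235.GF.Op

set_option autoImplicit false

/-! the recursion for the Green functions on a tree -/

namespace Pool.Agent.Q235.GF

open scoped ENNReal ComplexConjugate InnerProductSpace

noncomputable section

/-- rooted trees -/
structure Tr (V : Type) extends Dat V where
  root : V
  hroot : par root = root
  reach : ∀ x, ∃ n : ℕ, par^[n] x = root
  mem_ch : ∀ x y, y ∈ ch x ↔ y ≠ root ∧ par y = x

variable {V : Type}

/-- `v` is `x` or a descendant of `x` -/
def Tr.Desc (T : Tr V) (x v : V) : Prop := ∃ n : ℕ, T.par^[n] v = x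

variable {T : Tr V}

theorem desc_self (x : V) : T.Desc x x := ⟨0, rfl⟩

theorem desc_root (v : V) : T.Desc T.root v := T.reach v

theorem desc_par {x v : V} (h : T.Desc x v) (hv : v ≠ x) : T.Desc x (T.par v) := by
  obtain ⟨n, hn⟩ := h
  rcases n with _ | n
  · exact absurd hn hv
  · exact ⟨n, hn⟩

theorem desc_of_par {x v : V} (h : T.Desc x (T.par v)) : T.Desc x v := by
  obtain ⟨n, hn⟩ := h
  exact ⟨n + 1, hn⟩

theorem iter_root (n : ℕ) : T.par^[n] T.root = T.root := by
  induction n with
  | zero => rfl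
  | succ n ih => rw [Function.iterate_succ_apply, T.hroot, ih]

theorem not_desc_par {y : V} (hy : y ≠ T.root) : ¬ T.Desc y (T.par y) := by
  rintro ⟨n, hn⟩
  have h1 : T.par^[n + 1] y = y := hn
  have h2 : ∀ k, T.par^[(n + 1) * k] y = y := by
    intro k
    induction k with
    | zero => rfl
    | succ k ih => rw [Nat.mul_succ, Function.iterate_add_apply, h1, ih]
  obtain ⟨m, hm⟩ := T.reach y
  apply hy
  have h3 := h2 m
  have h4 : (n + 1) * m = n * m + m := by ring
  rw [h4, Function.iterate_add_apply, hm, iter_root] at h3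
  exact h3.symm

theorem ne_root_of_desc {x y : V} (h : T.Desc x y) (hy : y ≠ x) : y ≠ T.root := by
  rintro rfl
  obtain ⟨n, hn⟩ := h
  rw [iter_root] at hn
  exact hy hn

open Classical in
/-- the operator on the descendants of `x` -/
def sub (F : Cf T.toDat) (x : V) : Cf T.toDat where
  c := fun v => if T.Desc x v ∧ v ≠ x then F.c v else 0
  w := fun v => if T.Desc x v then F.w v else 0
  C := |F.C|
  hc := fun y => by
    split_ifs
    · exact (F.hc y).trans (le_abs_self _)
    · simp
  hw := fun y => by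
    split_ifs
    · exact (F.hw y).trans (le_abs_self _)
    · simp
  hch := fun y hy => by
    split_ifs at hy
    · exact F.hch y hy
    · exact absurd rfl hy

theorem sub_c_in (F : Cf T.toDat) {x v : V} (h : T.Desc x v) (hv : v ≠ x) :
    (sub F x).c v = F.c v := if_pos ⟨h, hv⟩

theorem sub_c_self (F : Cf T.toDat) (x : V) : (sub F x).c x = 0 := if_neg fun h => h.2 rfl

theorem sub_c_out (F : Cf T.toDat) {x v : V} (h : ¬ T.Desc x v) : (sub F x).c v = 0 :=
  if_neg fun h' => h h'.1

theorem sub_w_in (F : Cf T.toDat) {x v : V} (h : T.Desc x v) : (sub F x).w v = F.w v := if_pos h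

theorem sub_w_out (F : Cf T.toDat) {x v : V} (h : ¬ T.Desc x v) : (sub F x).w v = 0 := if_neg h

open Classical in
/-- restriction to the descendants of `x` -/
def res (T : Tr V) (x : V) (ψ : HV V) : HV V :=
  mk (fun v => if T.Desc x v then ψ v else 0) (by
    refine Summable.of_nonneg_of_le (fun v => sq_nonneg _) (fun v => ?_) (summable_sq ψ)
    split_ifs
    · exact le_rfl
    · simp)

theorem res_in {x v : V} (h : T.Desc x v) (ψ : HV V) : res T x ψ v = ψ v := if_pos h

theorem res_out {x v : V} (h : ¬ T.Desc x v) (ψ : HV V) : res T x ψ v = 0 := if_neg h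

/-- restriction to a subtree -/
theorem restrict (F : Cf T.toDat) {x' y : V} (hy : T.Desc x' y) (hne : y ≠ x') {z : ℂ}
    (hz : z.im ≠ 0) (ψ ρ : HV V) (hψ : TT (sub F x') ψ - z • ψ = ρ)
    (hρ : ∀ v, T.Desc y v → v ≠ y → ρ v = 0) :
    ψ y = (ρ y - F.c y * ψ (T.par y)) * gr (sub F y) y z := by
  have hyr : y ≠ T.root := ne_root_of_desc hy hne
  have hx'y : ¬ T.Desc y x' := by
    rintro ⟨n, hn⟩
    obtain ⟨k, hk⟩ := hy
    rcases k with _ | k
    · exact hne hk
    · apply not_desc_par hyr
      refine ⟨n + k, ?_⟩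
      rw [Function.iterate_add_apply]
      have : T.par^[k] (T.par y) = x' := hk
      rw [this]
      exact hn
  have hpt : ∀ v, F.c v * 0 = 0 := fun v => mul_zero _
  have hψv : ∀ v, (sub F x').c v * ψ (T.par v) + ∑ u ∈ T.ch v, conj ((sub F x').c u) * ψ u +
      (sub F x').w v * ψ v - z * ψ v = ρ v := by
    intro v
    have h1 := congrArg (fun f : HV V => f v) hψ
    simp only [lp.coeFn_sub, Pi.sub_apply, lp.coeFn_smul, Pi.smul_apply, smul_eq_mul] at h1
    rw [TT_apply] at h1
    exact h1
  have hkey : TT (sub F y) (res T y ψ) - z • res T y ψ = (ρ y - F.c y * ψ (T.par y)) • del y := by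
    apply extH
    intro v
    simp only [lp.coeFn_sub, Pi.sub_apply, lp.coeFn_smul, Pi.smul_apply, smul_eq_mul]
    rw [TT_apply]
    by_cases hv : T.Desc y v
    · have hvx : T.Desc x' v := by
        obtain ⟨n, hn⟩ := hv
        obtain ⟨k, hk⟩ := hy
        exact ⟨k + n, by rw [Function.iterate_add_apply, hn, hk]⟩
      have hvne : v ≠ x' := by
        rintro rfl
        exact hx'y hv
      have hsum : ∑ u ∈ T.ch v, conj ((sub F y).c u) * res T y ψ u =
          ∑ u ∈ T.ch v, conj ((sub F x').c u) * ψ u := by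
        apply Finset.sum_congr rfl
        intro u hu
        obtain ⟨hu1, hu2⟩ := (T.mem_ch v u).1 hu
        have h1 : T.Desc y u := desc_of_par (by rw [hu2]; exact hv)
        have h2 : T.Desc x' u := desc_of_par (by rw [hu2]; exact hvx)
        have h3 : u ≠ y := by
          rintro rfl
          rw [← hu2] at hv
          exact not_desc_par hu1 hv
        have h4 : u ≠ x' := by
          rintro rfl
          rw [← hu2] at hvx
          exact not_desc_par hu1 hvx
        rw [sub_c_in F h1 h3, sub_c_in F h2 h4, res_in h1]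
      rw [hsum, res_in hv, sub_w_in F hv]
      have h5 := hψv v
      rw [sub_w_in F hvx, sub_c_in F hvx hvne] at h5
      by_cases hvy : v = y
      · rw [hvy, sub_c_self, del_self, ← hvy]
        linear_combination h5
      · rw [sub_c_in F hv hvy, res_in (desc_par hv hvy), del_ne hvy, mul_zero]
        rw [hρ v hv hvy] at h5
        exact h5
    · have hvy : v ≠ y := by
        rintro rfl
        exact hv (desc_self v)
      have hsum : ∑ u ∈ T.ch v, conj ((sub F y).c u) * res T y ψ u = 0 := by
        apply Finset.sum_eq_zero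
        intro u hu
        obtain ⟨hu1, hu2⟩ := (T.mem_ch v u).1 hu
        by_cases h1 : T.Desc y u
        · have h3 : u = y := by
            by_contra h3
            apply hv
            rw [← hu2]
            exact desc_par h1 h3
          rw [h3, sub_c_self, map_zero, zero_mul]
        · rw [sub_c_out F h1, map_zero, zero_mul]
      rw [hsum, res_out hv, sub_w_out F hv, sub_c_out F hv, del_ne hvy]
      ring
  have h1 := RR_right (sub F y) hz (res T y ψ)
  rw [hkey, map_smul] at h1
  have h2 := congrArg (fun f : HV V => f y) h1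
  simp only [lp.coeFn_smul, Pi.smul_apply, smul_eq_mul] at h2
  rw [res_in (desc_self y)] at h2
  exact h2.symm

/-- the Green function of the subtree at `x` -/
def ga (F : Cf T.toDat) (x : V) (z : ℂ) : ℂ := gr (sub F x) x z

/-- **the recursion** -/
theorem ga_rec (F : Cf T.toDat) (x : V) {z : ℂ} (hz : z.im ≠ 0) :
    ga F x z * (z - F.w x + ∑ u ∈ T.ch x, (‖F.c u‖ ^ 2 : ℝ) * ga F u z) + 1 = 0 := by
  set ψ := RR (sub F x) z (del x) with hψ
  have h0 : TT (sub F x) ψ - z • ψ = del x := RR_left (sub F x) hz (del x)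
  have h1 := congrArg (fun f : HV V => f x) h0
  simp only [lp.coeFn_sub, Pi.sub_apply, lp.coeFn_smul, Pi.smul_apply, smul_eq_mul] at h1
  rw [TT_apply, del_self, sub_c_self, sub_w_in F (desc_self x)] at h1
  have hx : ψ x = ga F x z := rfl
  have hsum : ∑ u ∈ T.ch x, conj ((sub F x).c u) * ψ u =
      - (∑ u ∈ T.ch x, ((‖F.c u‖ ^ 2 : ℝ) : ℂ) * ga F u z) * ga F x z := by
    rw [← Finset.sum_neg_distrib, Finset.sum_mul]
    apply Finset.sum_congr rfl
    intro u hu
    obtain ⟨hu1, hu2⟩ := (T.mem_ch x u).1 hu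
    have hux : T.Desc x u := ⟨1, hu2⟩
    have hne : u ≠ x := by
      rintro rfl
      exact not_desc_par hu1 (by rw [hu2]; exact desc_self _)
    have h2 := restrict F hux hne hz ψ (del x) h0 (fun v hv _ => del_ne (by
      rintro rfl
      rw [← hu2] at hv
      exact not_desc_par hu1 hv))
    rw [sub_c_in F hux hne, h2, del_ne hne, hu2, hx]
    have h3 : conj (F.c u) * F.c u = ((‖F.c u‖ ^ 2 : ℝ) : ℂ) := by
      rw [mul_comm, Complex.mul_conj, Complex.normSq_eq_norm_sq]
    show conj (F.c u) * ((0 - F.c u * ga F x z) * ga F u z) = _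
    rw [← h3]
    ring
  rw [hsum, hx] at h1
  linear_combination -h1

theorem ga_conj (F : Cf T.toDat) (x : V) {z : ℂ} (hz : z.im ≠ 0) :
    ga F x (conj z) = conj (ga F x z) := by
  have := RR_conj (sub F x) x x z hz
  unfold ga gr
  rw [this, Complex.conj_conj]

/-- the Green function of the whole tree -/
def gG (F : Cf T.toDat) (x : V) (z : ℂ) : ℂ := gr (sub F T.root) x z

theorem gG_root (F : Cf T.toDat) (z : ℂ) : gG F T.root z = ga F T.root z := rfl

theorem gG_step (F : Cf T.toDat) (x : V) (hx : x ≠ T.root) {z : ℂ} (hz : z.im ≠ 0) :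
    gG F x z = ga F x z + (‖F.c x‖ ^ 2 : ℝ) * ga F x z ^ 2 * gG F (T.par x) z := by
  have hz' : (conj z).im ≠ 0 := by rw [Complex.conj_im]; exact neg_ne_zero.2 hz
  set ψ := RR (sub F T.root) z (del x) with hψ
  have h0 : TT (sub F T.root) ψ - z • ψ = del x := RR_left _ hz _
  have h1 := restrict F (desc_root x) hx hz ψ (del x) h0 (fun v _ hv => del_ne hv)
  rw [del_self] at h1
  set φ := RR (sub F T.root) (conj z) (del (T.par x)) with hφ
  have g0 : TT (sub F T.root) φ - (conj z) • φ = del (T.par x) := RR_left _ hz' _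
  have g1 := restrict F (desc_root x) hx hz' φ (del (T.par x)) g0 (fun v hv _ => del_ne (by
    rintro rfl
    exact not_desc_par hx hv))
  rw [del_ne (fun h => not_desc_par hx (by rw [← h]; exact desc_self _))] at g1
  have e1 : ψ (T.par x) = conj (φ x) := RR_conj (sub F T.root) x (T.par x) z hz
  have e2 : φ (T.par x) = conj (gG F (T.par x) z) := by
    have := RR_conj (sub F T.root) (T.par x) (T.par x) z hz
    unfold gG gr
    rw [this, Complex.conj_conj]
  have e3 : gr (sub F x) x (conj z) = conj (ga F x z) := ga_conj F x hz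
  rw [e2, e3] at g1
  have e4 : ψ x = gG F x z := rfl
  rw [e1, g1, e4] at h1
  rw [h1]
  simp only [map_mul, map_sub, Complex.conj_conj, map_zero]
  have h3 : F.c x * conj (F.c x) = ((‖F.c x‖ ^ 2 : ℝ) : ℂ) := by
    rw [Complex.mul_conj, Complex.normSq_eq_norm_sq]
  show (1 - F.c x * ((0 - conj (F.c x) * gG F (T.par x) z) * ga F x z)) * ga F x z = _
  rw [← h3]
  ring

end

end Pool.Agent.Q235.GF
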