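import Mathlib
import Pool.Agent.Q235.GF.Rec
import Pool.Agent.Q235.GF.Clu

set_option autoImplicit false

/-! label invariance and boundary values -/

namespace Pool.Agent.Q235.GF

open scoped ENNReal ComplexConjugate InnerProductSpace
open Filter Topology

noncomputable section

variable {V : Type} {T : Tr V} {A : Type} [Fintype A] [DecidableEq A]

/-- label invariance -/
structure Lb (F : Cf T.toDat) (label : V → A) (M : A → A → ℕ) (τ : A → A → ℝ) (wl : A → ℝ) :
    Prop where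
  card : ∀ x l, ((T.ch x).filter fun y => label y = l).card = M (label x) l
  tau : ∀ x, ∀ y ∈ T.ch x, ‖F.c y‖ ^ 2 = τ (label x) (label y)
  ne : ∀ x, ∀ y ∈ T.ch x, F.c y ≠ 0
  w : ∀ x, F.w x = wl (label x)
  surj : ∀ l, ∃ x, label x = l
  diag : ∀ l, 1 ≤ M l l

variable {F : Cf T.toDat} {label : V → A} {M : A → A → ℕ} {τ : A → A → ℝ} {wl : A → ℝ}

theorem sum_lab (h : Lb F label M τ wl) (x : V) (f : V → ℂ) :
    ∑ u ∈ T.ch x, ((‖F.c u‖ ^ 2 : ℝ) : ℂ) * f u =
      ∑ l, ((τ (label x) l : ℝ) : ℂ) * ∑ u ∈ (T.ch x).filter (fun y => label y = l), f u := by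
  rw [← Finset.sum_fiberwise (T.ch x) label]
  apply Finset.sum_congr rfl
  intro l _
  rw [Finset.mul_sum]
  apply Finset.sum_congr rfl
  intro u hu
  rw [Finset.mem_filter] at hu
  rw [h.tau x u hu.1, hu.2]

theorem tau_nonneg (h : Lb F label M τ wl) {j l : A} (hM : M j l ≠ 0) : 0 < τ j l := by
  obtain ⟨x, rfl⟩ := h.surj j
  rw [← h.card x l] at hM
  obtain ⟨y, hy⟩ := Finset.card_pos.1 (Nat.pos_of_ne_zero hM)
  rw [Finset.mem_filter] at hy
  rw [← hy.2, ← h.tau x y hy.1]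
  have := norm_pos_iff.2 (h.ne x y hy.1)
  positivity

/-- a bound for the total weight -/
def KK (F : Cf T.toDat) : ℝ := F.C ^ 2 * T.d

theorem KK_nonneg : 0 ≤ KK F := by unfold KK; positivity

theorem sum_le_KK (h : Lb F label M τ wl) (x : V) : ∑ l, |τ (label x) l| * (M (label x) l : ℝ) ≤ KK F := by
  have h1 : ∑ l, |τ (label x) l| * (M (label x) l : ℝ) = ∑ u ∈ T.ch x, ‖F.c u‖ ^ 2 := by
    rw [← Finset.sum_fiberwise (T.ch x) label]
    apply Finset.sum_congr rfl
    intro l _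
    rw [← h.card x l, mul_comm, ← nsmul_eq_mul, ← Finset.sum_const]
    apply Finset.sum_congr rfl
    intro u hu
    rw [Finset.mem_filter] at hu
    rw [h.tau x u hu.1, hu.2, abs_of_nonneg]
    rw [← hu.2, ← h.tau x u hu.1]
    positivity
  rw [h1]
  calc ∑ u ∈ T.ch x, ‖F.c u‖ ^ 2 ≤ ∑ u ∈ T.ch x, F.C ^ 2 :=
        Finset.sum_le_sum fun u _ => pow_le_pow_left₀ (norm_nonneg _) (F.hc u) 2
    _ = (T.ch x).card * F.C ^ 2 := by rw [Finset.sum_const, nsmul_eq_mul]
    _ ≤ T.d * F.C ^ 2 := mul_le_mul_of_nonneg_right (by exact_mod_cast T.hd x) (sq_nonneg _)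
    _ = _ := by unfold KK; ring

theorem sum_diff {s t : Finset V} (hst : s.card = t.card) (f : V → ℂ) (ε : ℝ)
    (h : ∀ x ∈ s, ∀ y ∈ t, ‖f x - f y‖ ≤ ε) : ‖∑ x ∈ s, f x - ∑ y ∈ t, f y‖ ≤ s.card * ε := by
  let e := Finset.equivOfCardEq hst
  have h1 : ∑ y ∈ t, f y = ∑ x : s, f (e x) := by
    rw [← Finset.sum_coe_sort t f]
    exact (Equiv.sum_comp e (fun y : t => f y)).symm
  rw [h1, ← Finset.sum_coe_sort s f, ← Finset.sum_sub_distrib]
  calc ‖∑ x : s, (f x - f (e x))‖ ≤ ∑ x : s, ‖f x - f (e x)‖ := norm_sum_le _ _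
    _ ≤ ∑ x : s, ε := Finset.sum_le_sum fun x _ => h x x.2 (e x) (e x).2
    _ = s.card * ε := by
      rw [Finset.sum_const, nsmul_eq_mul, Finset.card_univ, Fintype.card_coe]

theorem iter_bound (h : Lb F label M τ wl) {z : ℂ} (hz : z ∈ Hp) (n : ℕ) :
    ∀ x x', label x = label x' →
      ‖ga F x z - ga F x' z‖ ≤ 2 / z.im * (KK F / z.im ^ 2) ^ n := by
  have hz0 : 0 < z.im := hz
  induction n with
  | zero =>
    intro x x' _
    rw [pow_zero, mul_one]
    calc ‖ga F x z - ga F x' z‖ ≤ ‖ga F x z‖ + ‖ga F x' z‖ := norm_sub_le _ _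
      _ ≤ 1 / z.im + 1 / z.im := add_le_add (gr_norm _ _ hz) (gr_norm _ _ hz)
      _ = 2 / z.im := by ring
  | succ n ih =>
    intro x x' hxx
    set ε := 2 / z.im * (KK F / z.im ^ 2) ^ n with hε
    have hK := KK_nonneg (F := F)
    have hε0 : 0 ≤ ε := by positivity
    have r1 := ga_rec F x (z := z) (ne_of_gt hz0)
    have r2 := ga_rec F x' (z := z) (ne_of_gt hz0)
    have e1 : ga F x z - ga F x' z = ga F x z * ga F x' z *
        (∑ u ∈ T.ch x, ((‖F.c u‖ ^ 2 : ℝ) : ℂ) * ga F u z -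
          ∑ u ∈ T.ch x', ((‖F.c u‖ ^ 2 : ℝ) : ℂ) * ga F u z) := by
      have hw : F.w x = F.w x' := by rw [h.w, h.w, hxx]
      rw [hw] at r1
      linear_combination ga F x z * r2 - ga F x' z * r1
    have e2 : ‖∑ u ∈ T.ch x, ((‖F.c u‖ ^ 2 : ℝ) : ℂ) * ga F u z -
        ∑ u ∈ T.ch x', ((‖F.c u‖ ^ 2 : ℝ) : ℂ) * ga F u z‖ ≤ KK F * ε := by
      rw [sum_lab h, sum_lab h, ← hxx, ← Finset.sum_sub_distrib]
      calc ‖∑ l, (((τ (label x) l : ℝ) : ℂ) * ∑ u ∈ (T.ch x).filter (fun y => label y = l), ga F u z -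
            ((τ (label x) l : ℝ) : ℂ) * ∑ u ∈ (T.ch x').filter (fun y => label y = l), ga F u z)‖
          ≤ ∑ l, ‖((τ (label x) l : ℝ) : ℂ) * ∑ u ∈ (T.ch x).filter (fun y => label y = l), ga F u z -
            ((τ (label x) l : ℝ) : ℂ) * ∑ u ∈ (T.ch x').filter (fun y => label y = l), ga F u z‖ :=
            norm_sum_le _ _
        _ ≤ ∑ l, |τ (label x) l| * (M (label x) l : ℝ) * ε := by
            apply Finset.sum_le_sum
            intro l _
            rw [← mul_sub, norm_mul, Complex.norm_real, Real.norm_eq_abs, mul_assoc]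
            apply mul_le_mul_of_nonneg_left _ (abs_nonneg _)
            have h1 := sum_diff (s := (T.ch x).filter (fun y => label y = l))
              (t := (T.ch x').filter (fun y => label y = l)) (by
                rw [h.card, h.card, hxx]) (fun u => ga F u z) ε (by
                intro u hu v hv
                apply ih
                rw [(Finset.mem_filter.1 hu).2, (Finset.mem_filter.1 hv).2])
            rwa [h.card] at h1
        _ = (∑ l, |τ (label x) l| * (M (label x) l : ℝ)) * ε := by rw [Finset.sum_mul]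
        _ ≤ KK F * ε := mul_le_mul_of_nonneg_right (sum_le_KK h x) hε0
    rw [e1, norm_mul, norm_mul]
    have g1 := gr_norm (sub F x) x hz
    have g2 := gr_norm (sub F x') x' hz
    calc ‖ga F x z‖ * ‖ga F x' z‖ * _ ≤ (1 / z.im) * (1 / z.im) * (KK F * ε) := by
          apply mul_le_mul (mul_le_mul g1 g2 (norm_nonneg _) (by positivity)) e2 (norm_nonneg _)
            (by positivity)
      _ = 2 / z.im * (KK F / z.im ^ 2) ^ (n + 1) := by
          rw [hε, pow_succ]
          ring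

theorem ga_ana (x : V) : AnalyticOnNhd ℂ (ga F x) Hp := gr_ana _ _

/-- **label invariance** -/
theorem ga_label (h : Lb F label M τ wl) {x x' : V} (hxx : label x = label x') :
    Set.EqOn (ga F x) (ga F x') Hp := by
  have hK := KK_nonneg (F := F)
  have hU : ∀ z : ℂ, KK F + 1 < z.im → ga F x z = ga F x' z := by
    intro z hz
    have hz0 : z ∈ Hp := by
      show 0 < z.im
      linarith
    have hz1 : 0 < z.im := hz0
    have hq : KK F / z.im ^ 2 < 1 := by
      rw [div_lt_one (by positivity)]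
      nlinarith
    have hlim : Tendsto (fun n => 2 / z.im * (KK F / z.im ^ 2) ^ n) atTop (𝓝 (2 / z.im * 0)) :=
      (tendsto_pow_atTop_nhds_zero_of_lt_one (by positivity) hq).const_mul _
    have h1 : ‖ga F x z - ga F x' z‖ ≤ 2 / z.im * 0 :=
      ge_of_tendsto hlim (Eventually.of_forall fun n => iter_bound h hz0 n x x' hxx)
    rw [mul_zero] at h1
    exact sub_eq_zero.1 (norm_le_zero_iff.1 h1)
  have hz₀ : (((KK F + 2 : ℝ) : ℂ) * Complex.I) ∈ Hp := by
    show 0 < (((KK F + 2 : ℝ) : ℂ) * Complex.I).im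
    rw [Complex.im_ofReal_mul, Complex.I_im, mul_one]
    linarith
  refine (ga_ana x).eqOn_of_preconnected_of_eventuallyEq (ga_ana x') Hp_convex.isPreconnected hz₀ ?_
  have hopen : IsOpen {z : ℂ | KK F + 1 < z.im} := isOpen_lt continuous_const Complex.continuous_im
  filter_upwards [hopen.mem_nhds (show KK F + 1 < (((KK F + 2 : ℝ) : ℂ) * Complex.I).im by
    simp)] with z hz
  exact hU z hz

/-- the functions attached to the labels -/
def Gam (h : Lb F label M τ wl) (l : A) : ℂ → ℂ := ga F (h.surj l).choose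

theorem Gam_eq (h : Lb F label M τ wl) (x : V) {z : ℂ} (hz : z ∈ Hp) :
    ga F x z = Gam h (label x) z :=
  ga_label h (h.surj (label x)).choose_spec.symm hz

/-- the coefficients of the system -/
def mu (M : A → A → ℕ) (τ : A → A → ℝ) (j k : A) : ℝ := M j k * τ j k

theorem mu_nonneg (h : Lb F label M τ wl) (j k : A) : 0 ≤ mu M τ j k := by
  unfold mu
  by_cases hM : M j k = 0
  · rw [hM]; simp
  · have := tau_nonneg h hM
    positivity

theorem mu_pos (h : Lb F label M τ wl) (j : A) : 0 < mu M τ j j := by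
  have h1 := h.diag j
  have := tau_nonneg h (show M j j ≠ 0 by omega)
  unfold mu
  have : (0 : ℝ) < M j j := by exact_mod_cast h1
  positivity

theorem Gam_sys (h : Lb F label M τ wl) (l : A) {z : ℂ} (hz : z ∈ Hp) :
    Gam h l z * (z - wl l + ∑ k, ((mu M τ l k : ℝ) : ℂ) * Gam h k z) + 1 = 0 := by
  have hx := (h.surj l).choose_spec
  have r := ga_rec F (h.surj l).choose (z := z) (ne_of_gt hz)
  rw [sum_lab h, h.w, hx] at r
  have e : ∑ k, ((τ l k : ℝ) : ℂ) * ∑ u ∈ (T.ch (h.surj l).choose).filter (fun y => label y = k),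
      ga F u z = ∑ k, ((mu M τ l k : ℝ) : ℂ) * Gam h k z := by
    apply Finset.sum_congr rfl
    intro k _
    have e1 : ∑ u ∈ (T.ch (h.surj l).choose).filter (fun y => label y = k), ga F u z =
        (M l k : ℂ) * Gam h k z := by
      have : ∀ u ∈ (T.ch (h.surj l).choose).filter (fun y => label y = k), ga F u z = Gam h k z := by
        intro u hu
        rw [Gam_eq h u hz, (Finset.mem_filter.1 hu).2]
      rw [Finset.sum_congr rfl this, Finset.sum_const, h.card, hx, nsmul_eq_mul]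
    rw [e1]
    unfold mu
    push_cast
    ring
  rw [e] at r
  exact r

theorem im_of_mul {g f : ℂ} (h : g * f + 1 = 0) : g.im = ‖g‖ ^ 2 * f.im := by
  have hg : g ≠ 0 := by
    rintro rfl
    simp at h
  have hf : f = -g⁻¹ := by
    field_simp
    linear_combination h
  rw [hf, Complex.neg_im, Complex.inv_im, Complex.normSq_eq_norm_sq]
  have : ‖g‖ ^ 2 ≠ 0 := by positivity
  field_simp

theorem Gam_im (h : Lb F label M τ wl) (l : A) {z : ℂ} (hz : z ∈ Hp) :
    (Gam h l z).im = ‖Gam h l z‖ ^ 2 * (z.im + ∑ k, mu M τ l k * (Gam h k z).im) := by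
  have := im_of_mul (Gam_sys h l hz)
  rw [this]
  congr 1
  rw [Complex.add_im, Complex.sub_im, Complex.ofReal_im, sub_zero, Complex.im_sum]
  congr 1
  apply Finset.sum_congr rfl
  intro k _
  rw [Complex.im_ofReal_mul]

theorem Gam_pos (h : Lb F label M τ wl) (l : A) {z : ℂ} (hz : z ∈ Hp) : 0 < (Gam h l z).im :=
  gr_pos _ _ hz

theorem Gam_det (h : Lb F label M τ wl) {z : ℂ} (hz : z ∈ Hp) :
    (1 - Matrix.of fun j k => Gam h j z ^ 2 * ((mu M τ j k : ℝ) : ℂ) : Matrix A A ℂ).det ≠ 0 := by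
  intro h0
  obtain ⟨v, hv0, hv⟩ := Matrix.exists_mulVec_eq_zero_iff.2 h0
  have hv' : ∀ j, v j = ∑ k, Gam h j z ^ 2 * ((mu M τ j k : ℝ) : ℂ) * v k := by
    intro j
    have h1 := congrFun hv j
    rw [Matrix.sub_mulVec, Matrix.one_mulVec, Pi.sub_apply, Pi.zero_apply, sub_eq_zero] at h1
    exact h1
  obtain ⟨j₀, hj₀⟩ : ∃ j, v j ≠ 0 := by
    by_contra hcon
    push Not at hcon
    exact hv0 (funext hcon)
  obtain ⟨j, -, hj⟩ := Finset.exists_max_image Finset.univ (fun j => ‖v j‖ / (Gam h j z).im)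
    ⟨j₀, Finset.mem_univ j₀⟩
  set ρ := ‖v j‖ / (Gam h j z).im with hρ
  have hρ0 : 0 < ρ := by
    have h1 := hj j₀ (Finset.mem_univ _)
    have h2 : 0 < ‖v j₀‖ / (Gam h j₀ z).im := div_pos (norm_pos_iff.2 hj₀) (Gam_pos h j₀ hz)
    exact h2.trans_le h1
  have hle : ∀ k, ‖v k‖ ≤ ρ * (Gam h k z).im := by
    intro k
    have h1 := hj k (Finset.mem_univ _)
    rwa [div_le_iff₀ (Gam_pos h k hz)] at h1
  have h1 : ‖v j‖ ≤ ‖Gam h j z‖ ^ 2 * ∑ k, mu M τ j k * (ρ * (Gam h k z).im) := by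
    rw [hv' j]
    refine (norm_sum_le _ _).trans ?_
    rw [Finset.mul_sum]
    apply Finset.sum_le_sum
    intro k _
    rw [norm_mul, norm_mul, norm_pow, Complex.norm_real, Real.norm_eq_abs,
      abs_of_nonneg (mu_nonneg h j k), mul_assoc]
    apply mul_le_mul_of_nonneg_left _ (sq_nonneg _)
    exact mul_le_mul_of_nonneg_left (hle k) (mu_nonneg h j k)
  have h2 : ‖v j‖ = ρ * (Gam h j z).im := by
    rw [hρ, div_mul_cancel₀ _ (ne_of_gt (Gam_pos h j hz))]
  have h3 := Gam_im h j hz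
  have hg : 0 < ‖Gam h j z‖ ^ 2 := by
    have : Gam h j z ≠ 0 := by
      intro h0
      have := Gam_pos h j hz
      rw [h0] at this
      simp at this
    positivity
  have hz0 : 0 < z.im := hz
  have h4 : ∑ k, mu M τ j k * (ρ * (Gam h k z).im) = ρ * ∑ k, mu M τ j k * (Gam h k z).im := by
    rw [Finset.mul_sum]
    exact Finset.sum_congr rfl fun k _ => by ring
  rw [h4, h2] at h1
  have h5 : 0 < ρ * (‖Gam h j z‖ ^ 2 * z.im) := by positivity
  have h6 : ρ * (Gam h j z).im = ρ * (‖Gam h j z‖ ^ 2 * z.im) +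
      ‖Gam h j z‖ ^ 2 * (ρ * ∑ k, mu M τ j k * (Gam h k z).im) := by
    conv_lhs => rw [h3]
    ring
  linarith

theorem Gam_bound (h : Lb F label M τ wl) (j : A) : ∃ B : ℝ, ∀ z ∈ Hp, ‖Gam h j z‖ ≤ B := by
  refine ⟨1 + 1 / mu M τ j j, fun z hz => ?_⟩
  have hmu := mu_pos h j
  have h3 := Gam_im h j hz
  have hg := Gam_pos h j hz
  have hz0 : 0 < z.im := hz
  have h4 : mu M τ j j * (Gam h j z).im ≤ ∑ k, mu M τ j k * (Gam h k z).im :=
    Finset.single_le_sum (f := fun k => mu M τ j k * (Gam h k z).im)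
      (fun k _ => mul_nonneg (mu_nonneg h j k) (Gam_pos h k hz).le) (Finset.mem_univ j)
  have h5 : ‖Gam h j z‖ ^ 2 * (mu M τ j j * (Gam h j z).im) ≤ (Gam h j z).im := by
    conv_rhs => rw [h3]
    apply mul_le_mul_of_nonneg_left _ (sq_nonneg _)
    linarith
  have h6 : ‖Gam h j z‖ ^ 2 * mu M τ j j ≤ 1 := by
    by_contra hcon
    push Not at hcon
    nlinarith
  have h7 : ‖Gam h j z‖ ^ 2 ≤ 1 / mu M τ j j := by rwa [le_div_iff₀ hmu]
  have h8 : 0 < 1 / mu M τ j j := by positivity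
  nlinarith [norm_nonneg (Gam h j z)]

theorem Gam_lim (h : Lb F label M τ wl) (j : A) (x₀ : ℂ) (hx : x₀.im = 0) :
    ∃ L, Tendsto (Gam h j) (𝓝[Hp] x₀) (𝓝 L) := by
  obtain ⟨P, hP0, hP⟩ := algebraic (fun j k => ((mu M τ j k : ℝ) : ℂ)) (fun l => ((wl l : ℝ) : ℂ))
    (Gam h) (fun j => ga_ana _) (fun j z hz => Gam_sys h j hz) ⟨Complex.I, I_mem, Gam_det h I_mem⟩ j
  obtain ⟨B, hB⟩ := Gam_bound h j
  exact clu (Gam h j) (ga_ana _).continuousOn B hB P hP0 hP x₀ hx

/-- **boundary values of the Green functions of the subtrees** -/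
theorem ga_lim (h : Lb F label M τ wl) (x : V) (x₀ : ℂ) (hx : x₀.im = 0) :
    ∃ L, Tendsto (ga F x) (𝓝[Hp] x₀) (𝓝 L) := by
  obtain ⟨L, hL⟩ := Gam_lim h (label x) x₀ hx
  refine ⟨L, hL.congr' ?_⟩
  filter_upwards [self_mem_nhdsWithin] with z hz
  exact (Gam_eq h x hz).symm

/-- **boundary values of the Green functions** -/
theorem gG_lim (h : Lb F label M τ wl) (x₀ : ℂ) (hx : x₀.im = 0) (n : ℕ) :
    ∀ x, T.par^[n] x = T.root → ∃ L, Tendsto (gG F x) (𝓝[Hp] x₀) (𝓝 L) := by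
  induction n with
  | zero =>
    intro x hxr
    have : x = T.root := hxr
    rw [this]
    exact ga_lim h _ x₀ hx
  | succ n ih =>
    intro x hxr
    by_cases hr : x = T.root
    · rw [hr]
      exact ga_lim h _ x₀ hx
    · obtain ⟨L, hL⟩ := ih (T.par x) hxr
      obtain ⟨L', hL'⟩ := ga_lim h x x₀ hx
      refine ⟨_, ((hL'.add (((hL'.pow 2).const_mul ((‖F.c x‖ ^ 2 : ℝ) : ℂ)).mul hL))).congr' ?_⟩
      filter_upwards [self_mem_nhdsWithin] with z hz
      exact (gG_step F x hr (ne_of_gt hz)).symm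

end

end Pool.Agent.Q235.GF
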