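import Mathlib
import Pool.Agent.Q235.GF.Lab

set_option autoImplicit false

/-! weighted spaces -/

namespace Pool.Agent.Q235.GF

open scoped ENNReal ComplexConjugate InnerProductSpace
open Filter Topology

noncomputable section

/-- square summable with weight `ν` -/
def L2w {V : Type} (ν : V → ℝ) (φ : V → ℂ) : Prop := Summable fun x => ν x * ‖φ x‖ ^ 2

/-- `u = (T_S - z)⁻¹ δ_x` -/
def IsSol {V : Type} (ν : V → ℝ) (t : V → V → ℂ) (w : V → ℝ) (S : Set V) (z : ℂ) (x : V)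
    (u : V → ℂ) : Prop :=
  L2w ν u ∧ (∀ y, y ∉ S → u y = 0) ∧
    ∀ y ∈ S, ∑' y', t y y' * u y' + (w y : ℂ) * u y - z * u y = Set.indicator {x} 1 y

open Classical in
/-- `⟨δ_x, (T_S - z)⁻¹ δ_x⟩` -/
def green {V : Type} (ν : V → ℝ) (t : V → V → ℂ) (w : V → ℝ) (S : Set V) (x : V) (z : ℂ) : ℂ :=
  if h : ∃ u, IsSol ν t w S z x u then ν x * h.choose x else 0

/-- boundary values -/
def HasBV (f : ℂ → ℂ) : Prop := ∃ f₀ : ℝ → ℂ, Continuous f₀ ∧ ∀ E : ℝ,
  Tendsto (fun η : ℝ => f (E + η * Complex.I)) (𝓝[>] 0) (𝓝 (f₀ E)) ∧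
  Tendsto f (𝓝[{z : ℂ | 0 < z.im}] (E : ℂ)) (𝓝 (f₀ E))

theorem green_eq {V : Type} {ν : V → ℝ} {t : V → V → ℂ} {w : V → ℝ} {S : Set V} {x : V} {z : ℂ}
    (h : ∃! u, IsSol ν t w S z x u) {u : V → ℂ} (hu : IsSol ν t w S z x u) :
    green ν t w S x z = ν x * u x := by
  have h1 : ∃ u, IsSol ν t w S z x u := ⟨u, hu⟩
  unfold green
  rw [dif_pos h1, h.unique h1.choose_spec hu]

theorem hasBV {f : ℂ → ℂ} (h : ∀ x₀ : ℂ, x₀.im = 0 → ∃ L, Tendsto f (𝓝[Hp] x₀) (𝓝 L)) :
    HasBV f := by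
  have hcl : {z : ℂ | z.im = 0} ⊆ closure Hp := by
    intro x₀ hx
    rw [Metric.mem_closure_iff]
    intro ε hε
    refine ⟨x₀ + (ε / 2 : ℝ) * Complex.I, ?_, ?_⟩
    · show 0 < (x₀ + (ε / 2 : ℝ) * Complex.I).im
      rw [Complex.add_im, Complex.im_ofReal_mul, Complex.I_im, mul_one, show x₀.im = 0 from hx]
      linarith
    · rw [dist_eq_norm]
      have : x₀ - (x₀ + (ε / 2 : ℝ) * Complex.I) = -((ε / 2 : ℝ) * Complex.I) := by ring
      rw [this, norm_neg, norm_mul, Complex.norm_I, mul_one, Complex.norm_real, Real.norm_eq_abs,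
        abs_of_pos (by linarith)]
      linarith
  refine ⟨fun E => extendFrom Hp f (E : ℂ), ?_, fun E => ?_⟩
  · have h1 := continuousOn_extendFrom hcl (f := f) fun x hx => h x hx
    exact h1.comp_continuous Complex.continuous_ofReal fun E => Complex.ofReal_im E
  · have h1 := tendsto_extendFrom (h (E : ℂ) (Complex.ofReal_im E))
    refine ⟨?_, h1⟩
    have h2 : Tendsto (fun η : ℝ => (E : ℂ) + η * Complex.I) (𝓝[>] 0) (𝓝[Hp] (E : ℂ)) := by
      rw [tendsto_nhdsWithin_iff]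
      constructor
      · have h3 : Tendsto (fun η : ℝ => (E : ℂ) + η * Complex.I) (𝓝 0) (𝓝 ((E : ℂ) + (0 : ℝ) * Complex.I)) := by
          apply Continuous.tendsto
          fun_prop
        rw [Complex.ofReal_zero, zero_mul, add_zero] at h3
        exact h3.mono_left nhdsWithin_le_nhds
      · filter_upwards [self_mem_nhdsWithin] with η hη
        show 0 < ((E : ℂ) + η * Complex.I).im
        rw [Complex.add_im, Complex.ofReal_im, Complex.im_ofReal_mul, Complex.I_im, mul_one, zero_add]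
        exact hη
    exact h1.comp h2

variable {V : Type} {T : Tr V}

section

variable {ν : V → ℝ} {t : V → V → ℂ} {w : V → ℝ} (F : Cf T.toDat)

/-- the operators agree -/
structure Agree (ν : V → ℝ) (t : V → V → ℂ) (w : V → ℝ) (F : Cf T.toDat) : Prop where
  pos : ∀ x, 0 < ν x
  ne : ∀ x y, t x y ≠ 0 → (y ≠ T.root ∧ T.par y = x) ∨ (x ≠ T.root ∧ T.par x = y)
  symm : ∀ x y, t x y * ν x = conj (t y x) * ν y
  c : ∀ y, y ≠ T.root → F.c y = (Real.sqrt (ν y) / Real.sqrt (ν (T.par y)) : ℝ) * t y (T.par y)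
  w : ∀ y, F.w y = w y

variable {F}

theorem sq_ne (h : Agree ν t w F) (x : V) : ((Real.sqrt (ν x) : ℝ) : ℂ) ≠ 0 := by
  have := Real.sqrt_pos.2 (h.pos x)
  exact_mod_cast this.ne'

theorem conj_c (h : Agree ν t w F) {x u : V} (hu : u ∈ T.ch x) :
    conj (F.c u) * (Real.sqrt (ν u) : ℝ) = (Real.sqrt (ν x) : ℝ) * t x u := by
  obtain ⟨h1, h2⟩ := (T.mem_ch x u).1 hu
  rw [h.c u h1, h2, map_mul, Complex.conj_ofReal]
  have hs := h.symm x u
  have hx := sq_ne h x
  have hsq : ((Real.sqrt (ν u) : ℝ) : ℂ) * (Real.sqrt (ν u) : ℝ) = ν u := by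
    rw [← Complex.ofReal_mul, Real.mul_self_sqrt (h.pos u).le]
  have hsqx : ((Real.sqrt (ν x) : ℝ) : ℂ) * (Real.sqrt (ν x) : ℝ) = ν x := by
    rw [← Complex.ofReal_mul, Real.mul_self_sqrt (h.pos x).le]
  push_cast
  rw [div_mul_eq_mul_div, div_mul_eq_mul_div, div_eq_iff hx]
  calc ((Real.sqrt (ν u) : ℝ) : ℂ) * conj (t u x) * (Real.sqrt (ν u) : ℝ)
      = conj (t u x) * (((Real.sqrt (ν u) : ℝ) : ℂ) * (Real.sqrt (ν u) : ℝ)) := by ring
    _ = t x u * (((Real.sqrt (ν x) : ℝ) : ℂ) * (Real.sqrt (ν x) : ℝ)) := by rw [hsq, hsqx, hs]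
    _ = _ := by ring

theorem tsum_eq_root (h : Agree ν t w F) (u : V → ℂ) (y : V) (hy : y = T.root) :
    ∑' y', t y y' * u y' = ∑ y' ∈ T.ch y, t y y' * u y' := by
  rw [tsum_eq_sum (s := T.ch y)]
  intro y' hy'
  have : t y y' = 0 := by
    by_contra hne
    rcases h.ne y y' hne with h1 | h1
    · exact hy' ((T.mem_ch y y').2 h1)
    · exact h1.1 hy
  rw [this, zero_mul]

theorem tsum_eq (h : Agree ν t w F) (u : V → ℂ) (y : V) (hy : y ≠ T.root) :
    ∑' y', t y y' * u y' = t y (T.par y) * u (T.par y) +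
      ∑ y' ∈ T.ch y, t y y' * u y' := by
  classical
  have hnot : T.par y ∉ T.ch y := by
    intro hmem
    obtain ⟨h1, h2⟩ := (T.mem_ch y (T.par y)).1 hmem
    exact not_desc_par hy ⟨1, h2⟩
  rw [← Finset.sum_insert (f := fun y' => t y y' * u y') hnot, tsum_eq_sum (s := insert (T.par y) (T.ch y))]
  intro y' hy'
  rw [Finset.mem_insert, not_or] at hy'
  have : t y y' = 0 := by
    by_contra hne
    rcases h.ne y y' hne with h1 | h1
    · exact hy'.2 ((T.mem_ch y y').2 h1)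
    · exact hy'.1 h1.2.symm
  rw [this, zero_mul]

/-- comparison of the operators at a vertex of the subtree -/
theorem TT_weight (h : Agree ν t w F) (x : V) (ψ : HV V) (u : V → ℂ)
    (hu : ∀ y, ψ y = (Real.sqrt (ν y) : ℝ) * u y) (hout : ∀ y, ¬ T.Desc x y → u y = 0) (z : ℂ)
    {y : V} (hy : T.Desc x y) :
    TT (sub F x) ψ y - z * ψ y =
      (Real.sqrt (ν y) : ℝ) * (∑' y', t y y' * u y' + (w y : ℂ) * u y - z * u y) := by
  rw [TT_apply, sub_w_in F hy, h.w, hu y]
  have hsum : ∑ v ∈ T.ch y, conj ((sub F x).c v) * ψ v =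
      (Real.sqrt (ν y) : ℝ) * ∑ y' ∈ T.ch y, t y y' * u y' := by
    rw [Finset.mul_sum]
    apply Finset.sum_congr rfl
    intro v hv
    obtain ⟨h1, h2⟩ := (T.mem_ch y v).1 hv
    have h3 : T.Desc x v := desc_of_par (by rw [h2]; exact hy)
    have h4 : v ≠ x := by
      rintro rfl
      rw [← h2] at hy
      exact not_desc_par h1 hy
    rw [sub_c_in F h3 h4, hu v, ← mul_assoc, conj_c h hv]
    ring
  rw [hsum]
  by_cases hyx : y = x
  · have h1 : ∑' y', t y y' * u y' = ∑ y' ∈ T.ch y, t y y' * u y' := by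
      by_cases hr : y = T.root
      · exact tsum_eq_root h u y hr
      · rw [tsum_eq h u y hr, hout (T.par y) (by rw [← hyx]; exact not_desc_par hr), mul_zero,
          zero_add]
    rw [h1, hyx, sub_c_self]
    ring
  · have hr : y ≠ T.root := ne_root_of_desc hy hyx
    rw [tsum_eq h u y hr, sub_c_in F hy hyx, h.c y hr, hu (T.par y)]
    have hp := sq_ne h (T.par y)
    push_cast
    field_simp

theorem TT_out (x : V) (ψ : HV V) {y : V} (hy : ¬ T.Desc x y) : TT (sub F x) ψ y = 0 := by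
  rw [TT_apply, sub_w_out F hy, sub_c_out F hy]
  have hsum : ∑ v ∈ T.ch y, conj ((sub F x).c v) * ψ v = 0 := by
    apply Finset.sum_eq_zero
    intro v hv
    obtain ⟨h1, h2⟩ := (T.mem_ch y v).1 hv
    by_cases h3 : T.Desc x v
    · have h4 : v = x := by
        by_contra h4
        apply hy
        rw [← h2]
        exact desc_par h3 h4
      rw [h4, sub_c_self, map_zero, zero_mul]
    · rw [sub_c_out F h3, map_zero, zero_mul]
  rw [hsum]
  simp

theorem mem_L2w (h : Agree ν t w F) (ψ : HV V) (u : V → ℂ)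
    (hu : ∀ y, ψ y = (Real.sqrt (ν y) : ℝ) * u y) : L2w ν u := by
  refine (summable_sq ψ).congr fun y => ?_
  rw [hu y, norm_mul, mul_pow, Complex.norm_real, Real.norm_eq_abs, sq_abs,
    Real.sq_sqrt (h.pos y).le]

theorem exists_sol (h : Agree ν t w F) (x' x : V) (hx : T.Desc x' x) {z : ℂ} (hz : z ∈ Hp) :
    ∃ u, IsSol ν t w {y | T.Desc x' y} z x u ∧ u x = RR (sub F x') z (del x) x := by
  have hz0 : z.im ≠ 0 := ne_of_gt hz
  have hzne : z ≠ 0 := by
    rintro rfl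
    exact hz0 rfl
  set ψ : HV V := ((Real.sqrt (ν x) : ℝ) : ℂ) • RR (sub F x') z (del x) with hψ
  have h1 : TT (sub F x') ψ - z • ψ = ((Real.sqrt (ν x) : ℝ) : ℂ) • del x := by
    have h2 := RR_left (sub F x') hz0 (del x)
    rw [hψ, map_smul, smul_comm z, ← smul_sub, h2]
  have hpt : ∀ y, TT (sub F x') ψ y - z * ψ y = (Real.sqrt (ν x) : ℝ) * del x y := by
    intro y
    have h3 := congrArg (fun f : HV V => f y) h1
    simpa only [lp.coeFn_sub, Pi.sub_apply, lp.coeFn_smul, Pi.smul_apply, smul_eq_mul] using h3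
  have hout : ∀ y, ¬ T.Desc x' y → ψ y = 0 := by
    intro y hy
    have h3 := hpt y
    rw [TT_out x' ψ hy, del_ne (by rintro rfl; exact hy hx), mul_zero, zero_sub, neg_eq_zero] at h3
    exact (mul_eq_zero.1 h3).resolve_left hzne
  have hu : ∀ y, ψ y = (Real.sqrt (ν y) : ℝ) * (ψ y / (Real.sqrt (ν y) : ℝ)) := by
    intro y
    rw [mul_div_cancel₀ _ (sq_ne h y)]
  refine ⟨fun y => ψ y / (Real.sqrt (ν y) : ℝ), ⟨mem_L2w h ψ _ hu, ?_, ?_⟩, ?_⟩
  · intro y hy
    show ψ y / _ = 0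
    rw [hout y hy, zero_div]
  · intro y hy
    have h3 := TT_weight h x' ψ (fun y => ψ y / (Real.sqrt (ν y) : ℝ)) hu (fun y hy => by
      show ψ y / _ = 0
      rw [hout y hy, zero_div]) z (y := y) hy
    rw [hpt y] at h3
    have hsq := sq_ne h y
    by_cases hyx : y = x
    · rw [hyx, Set.indicator_of_mem (Set.mem_singleton x), Pi.one_apply]
      rw [hyx, del_self, mul_one] at h3
      rw [hyx] at hsq
      have h4 := mul_left_cancel₀ hsq ((mul_one _).trans h3)
      exact h4.symm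
    · rw [Set.indicator_of_notMem (by simpa using hyx)]
      rw [del_ne hyx, mul_zero] at h3
      exact (mul_eq_zero.1 h3.symm).resolve_left hsq
  · show ψ x / _ = _
    rw [hψ, lp.coeFn_smul, Pi.smul_apply, smul_eq_mul, mul_div_assoc, mul_div_cancel₀]
    exact sq_ne h x

theorem unique_sol (h : Agree ν t w F) (x' x : V) (hx : T.Desc x' x) {z : ℂ} (hz : z ∈ Hp)
    {u u' : V → ℂ} (hu : IsSol ν t w {y | T.Desc x' y} z x u)
    (hu' : IsSol ν t w {y | T.Desc x' y} z x u') : u = u' := by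
  have hz0 : z.im ≠ 0 := ne_of_gt hz
  have key : ∀ u, IsSol ν t w {y | T.Desc x' y} z x u → ∀ y,
      (Real.sqrt (ν y) : ℝ) * u y = (((Real.sqrt (ν x) : ℝ) : ℂ) • RR (sub F x') z (del x) : HV V) y := by
    rintro u ⟨h1, h2, h3⟩ y
    have hs : Summable fun y => ‖((Real.sqrt (ν y) : ℝ) : ℂ) * u y‖ ^ 2 := by
      refine h1.congr fun y => ?_
      rw [norm_mul, mul_pow, Complex.norm_real, Real.norm_eq_abs, sq_abs,
        Real.sq_sqrt (h.pos y).le]
    set ψ := mk (fun y => ((Real.sqrt (ν y) : ℝ) : ℂ) * u y) hs with hψ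
    have h4 : TT (sub F x') ψ - z • ψ = ((Real.sqrt (ν x) : ℝ) : ℂ) • del x := by
      apply extH
      intro y
      simp only [lp.coeFn_sub, Pi.sub_apply, lp.coeFn_smul, Pi.smul_apply, smul_eq_mul]
      by_cases hy : T.Desc x' y
      · rw [TT_weight h x' ψ u (fun y => rfl) h2 z hy, h3 y hy]
        by_cases hyx : y = x
        · rw [hyx, Set.indicator_of_mem (Set.mem_singleton x), Pi.one_apply, del_self]
        · rw [Set.indicator_of_notMem (by simpa using hyx), del_ne hyx, mul_zero, mul_zero]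
      · rw [TT_out x' ψ hy, del_ne (by rintro rfl; exact hy hx), mul_zero]
        have : ψ y = 0 := by
          show ((Real.sqrt (ν y) : ℝ) : ℂ) * u y = 0
          rw [h2 y hy, mul_zero]
        rw [this, mul_zero, sub_zero]
    have h5 := RR_right (sub F x') hz0 ψ
    rw [h4, map_smul] at h5
    rw [h5]
    rfl
  funext y
  have h1 := (key u hu y).trans (key u' hu' y).symm
  exact mul_left_cancel₀ (sq_ne h y) h1

theorem main_w (h : Agree ν t w F) {A : Type} [Fintype A] [DecidableEq A] {label : V → A}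
    {M : A → A → ℕ} {τ : A → A → ℝ} {wl : A → ℝ} (hL : Lb F label M τ wl) (x : V) :
    (∀ z ∈ Hp, ∃! u, IsSol ν t w {y | T.Desc x y} z x u) ∧
    (∀ z ∈ Hp, ∃! u, IsSol ν t w Set.univ z x u) ∧
    HasBV (green ν t w {y | T.Desc x y} x) ∧ HasBV (green ν t w Set.univ x) := by
  have hroot : {y | T.Desc T.root y} = Set.univ := by
    ext y
    exact ⟨fun _ => trivial, fun _ => desc_root y⟩
  have e1 : ∀ z ∈ Hp, ∃! u, IsSol ν t w {y | T.Desc x y} z x u := by
    intro z hz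
    obtain ⟨u, hu, -⟩ := exists_sol h x x (desc_self x) hz
    exact ⟨u, hu, fun u' hu' => unique_sol h x x (desc_self x) hz hu' hu⟩
  have e2 : ∀ z ∈ Hp, ∃! u, IsSol ν t w Set.univ z x u := by
    intro z hz
    rw [← hroot]
    obtain ⟨u, hu, -⟩ := exists_sol h T.root x (desc_root x) hz
    exact ⟨u, hu, fun u' hu' => unique_sol h T.root x (desc_root x) hz hu' hu⟩
  refine ⟨e1, e2, ?_, ?_⟩
  · apply hasBV
    intro x₀ hx₀
    obtain ⟨L, hL'⟩ := ga_lim hL x x₀ hx₀
    refine ⟨(ν x : ℂ) * L, (hL'.const_mul (ν x : ℂ)).congr' ?_⟩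
    filter_upwards [self_mem_nhdsWithin] with z hz
    obtain ⟨u, hu, hu2⟩ := exists_sol h x x (desc_self x) hz
    rw [green_eq (e1 z hz) hu, hu2]
    rfl
  · apply hasBV
    intro x₀ hx₀
    obtain ⟨n, hn⟩ := T.reach x
    obtain ⟨L, hL'⟩ := gG_lim hL x₀ hx₀ n x hn
    refine ⟨(ν x : ℂ) * L, (hL'.const_mul (ν x : ℂ)).congr' ?_⟩
    filter_upwards [self_mem_nhdsWithin] with z hz
    obtain ⟨u, hu, hu2⟩ := exists_sol h T.root x (desc_root x) hz
    rw [hroot] at hu
    rw [green_eq (e2 z hz) hu, hu2]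
    rfl

end

end

end Pool.Agent.Q235.GF
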