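import Mathlib
import Pool.Agent.Q235.GF.Wtd

set_option autoImplicit false

/-! from the raw data to the theorem -/

namespace Pool.Agent.Q235.GF

open scoped ENNReal ComplexConjugate InnerProductSpace
open Filter Topology

noncomputable section

variable {A : Type} [Fintype A] [DecidableEq A]

/-- the raw tree -/
structure Raw (M : Matrix A A ℕ) {V : Type} (root : V) (parent : V → V) (label : V → A) :
    Prop where
  diag : ∀ j, 1 ≤ M j j
  prim : ∃ n : ℕ, ∀ j k, 0 < (M ^ n) j k
  parent_root : parent root = root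
  reach : ∀ x, ∃ n : ℕ, parent^[n] x = root
  children : ∀ x l, {y | y ≠ root ∧ parent y = x ∧ label y = l}.encard = M (label x) l

variable {M : Matrix A A ℕ} {V : Type} {root : V} {parent : V → V} {label : V → A}

theorem Raw.finite (h : Raw M root parent label) (x : V) :
    {y | y ≠ root ∧ parent y = x}.Finite := by
  have h1 : {y | y ≠ root ∧ parent y = x} =
      ⋃ l, {y | y ≠ root ∧ parent y = x ∧ label y = l} := by
    ext y
    rw [Set.mem_iUnion]
    constructor
    · rintro ⟨h1, h2⟩
      exact ⟨label y, h1, h2, rfl⟩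
    · rintro ⟨l, h1, h2, -⟩
      exact ⟨h1, h2⟩
  rw [h1]
  apply Set.finite_iUnion
  intro l
  apply Set.finite_of_encard_eq_coe (h.children x l)

/-- the children -/
def Raw.ch (h : Raw M root parent label) (x : V) : Finset V := (h.finite x).toFinset

theorem Raw.mem_ch (h : Raw M root parent label) (x y : V) :
    y ∈ h.ch x ↔ y ≠ root ∧ parent y = x := by
  unfold Raw.ch
  rw [Set.Finite.mem_toFinset]
  rfl

theorem Raw.card (h : Raw M root parent label) (x : V) (l : A) :
    ((h.ch x).filter fun y => label y = l).card = M (label x) l := by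
  have h1 := h.children x l
  have h2 : (((h.ch x).filter fun y => label y = l : Finset V) : Set V) =
      {y | y ≠ root ∧ parent y = x ∧ label y = l} := by
    ext y
    rw [Finset.coe_filter, Set.mem_setOf_eq, h.mem_ch, and_assoc]
    rfl
  rw [← h2, Set.encard_coe_eq_coe_finsetCard] at h1
  exact_mod_cast h1

/-- the tree -/
def Raw.tr (h : Raw M root parent label) : Tr V where
  par := parent
  ch := h.ch
  hpar := fun x y hy => ((h.mem_ch x y).1 hy).2
  d := ∑ j, ∑ l, M j l
  hd := fun x => by
    have h1 : (h.ch x).card = ∑ l, M (label x) l := by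
      rw [← Finset.sum_congr rfl fun l _ => h.card x l]
      exact Finset.card_eq_sum_card_fiberwise fun y _ => Finset.mem_univ _
    rw [h1]
    exact Finset.single_le_sum (f := fun j => ∑ l, M j l) (fun _ _ => Nat.zero_le _)
      (Finset.mem_univ (label x))
  root := root
  hroot := h.parent_root
  reach := h.reach
  mem_ch := h.mem_ch

theorem Raw.surj (h : Raw M root parent label) (l : A) : ∃ x, label x = l := by
  have key : ∀ n : ℕ, ∀ (x : V) (k : A), 0 < (M ^ n) (label x) k → ∃ y, label y = k := by
    intro n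
    induction n with
    | zero =>
      intro x k hk
      rw [pow_zero] at hk
      by_cases hxk : label x = k
      · exact ⟨x, hxk⟩
      · rw [Matrix.one_apply_ne hxk] at hk
        exact absurd hk (lt_irrefl _)
    | succ n ih =>
      intro x k hk
      rw [pow_succ', Matrix.mul_apply] at hk
      obtain ⟨i, -, hi⟩ := Finset.exists_ne_zero_of_sum_ne_zero hk.ne'
      have h1 : M (label x) i ≠ 0 := left_ne_zero_of_mul hi
      have h2 : (M ^ n) i k ≠ 0 := right_ne_zero_of_mul hi
      rw [← h.card x i] at h1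
      obtain ⟨y, hy⟩ := Finset.card_pos.1 (Nat.pos_of_ne_zero h1)
      rw [Finset.mem_filter] at hy
      apply ih y k
      rw [hy.2]
      exact Nat.pos_of_ne_zero h2
  obtain ⟨n, hn⟩ := h.prim
  exact key n root l (hn _ _)

/-- the raw operator -/
structure RawOp (M : Matrix A A ℕ) {V : Type} (root : V) (parent : V → V) (label : V → A)
    (ν : V → ℝ) (t : V → V → ℂ) (w : V → ℝ) (mm : A → A → ℝ) (m : A → ℝ) : Prop where
  pos : ∀ x, 0 < ν x
  lab : ∀ x y, label x = label y → ν x = ν y
  ne : ∀ x y, t x y ≠ 0 ↔ (y ≠ root ∧ parent y = x) ∨ (x ≠ root ∧ parent x = y)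
  symm : ∀ x y, t x y * ν x = conj (t y x) * ν y
  nsq : ∀ x y, y ≠ root → parent y = x →
    ‖t x y‖ ^ 2 * (M (label x) (label y) : ℝ) = mm (label x) (label y)
  hw : ∀ x, w x = m (label x)

variable {ν : V → ℝ} {t : V → V → ℂ} {w : V → ℝ} {mm : A → A → ℝ} {m : A → ℝ}

/-- the weights by label -/
def Raw.N (h : Raw M root parent label) (ν : V → ℝ) (l : A) : ℝ := ν (h.surj l).choose

theorem Raw.N_eq (h : Raw M root parent label) (ho : RawOp M root parent label ν t w mm m)
    (x : V) : h.N ν (label x) = ν x := ho.lab _ _ (h.surj (label x)).choose_spec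

/-- the coefficient of the recursion -/
def Raw.tau (h : Raw M root parent label) (ν : V → ℝ) (mm : A → A → ℝ) (j l : A) : ℝ :=
  h.N ν j / h.N ν l * (mm j l / M j l)

open Classical in
/-- the coefficient -/
def cc (root : V) (parent : V → V) (ν : V → ℝ) (t : V → V → ℂ) (y : V) : ℂ :=
  if y ≠ root then (Real.sqrt (ν y) / Real.sqrt (ν (parent y)) : ℝ) * t y (parent y) else 0

theorem cc_norm (h : Raw M root parent label) (ho : RawOp M root parent label ν t w mm m)
    {y : V} (hy : y ≠ root) :
    ‖cc root parent ν t y‖ ^ 2 = h.tau ν mm (label (parent y)) (label y) := by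
  have hpy := ho.pos y
  have hpx := ho.pos (parent y)
  have hs := ho.symm (parent y) y
  have hs' : ‖t (parent y) y‖ * ν (parent y) = ‖t y (parent y)‖ * ν y := by
    have := congrArg norm hs
    rw [norm_mul, norm_mul, RCLike.norm_conj, Complex.norm_real, Complex.norm_real,
      Real.norm_of_nonneg hpx.le, Real.norm_of_nonneg hpy.le] at this
    exact this
  have hM : (M (label (parent y)) (label y) : ℝ) ≠ 0 := by
    rw [← h.card (parent y) (label y)]
    have : y ∈ (h.ch (parent y)).filter fun y' => label y' = label y := by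
      rw [Finset.mem_filter]
      exact ⟨(h.mem_ch _ _).2 ⟨hy, rfl⟩, rfl⟩
    exact_mod_cast (Finset.card_pos.2 ⟨y, this⟩).ne'
  have hn := ho.nsq (parent y) y hy rfl
  unfold cc Raw.tau
  rw [if_pos hy, h.N_eq ho, h.N_eq ho, ← hn, mul_div_assoc, div_self hM, mul_one, norm_mul,
    mul_pow, Complex.norm_real, Real.norm_eq_abs, sq_abs, div_pow, Real.sq_sqrt hpy.le,
    Real.sq_sqrt hpx.le]
  have h3 : ‖t (parent y) y‖ = ‖t y (parent y)‖ * ν y / ν (parent y) := by
    rw [eq_div_iff hpx.ne', hs']
  rw [h3]
  field_simp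

/-- the coefficients -/
def Raw.cf (h : Raw M root parent label) (ho : RawOp M root parent label ν t w mm m) :
    Cf h.tr.toDat where
  c := cc root parent ν t
  w := w
  C := 1 + ∑ j, ∑ l, |h.tau ν mm j l| + ∑ j, |m j|
  hc := fun y => by
    have h0 : (0 : ℝ) ≤ ∑ j, |m j| := Finset.sum_nonneg fun _ _ => abs_nonneg _
    have h1 : (0 : ℝ) ≤ ∑ j, ∑ l, |h.tau ν mm j l| :=
      Finset.sum_nonneg fun _ _ => Finset.sum_nonneg fun _ _ => abs_nonneg _
    by_cases hy : y ≠ root
    · have h2 := cc_norm h ho hy
      have h3 : |h.tau ν mm (label (parent y)) (label y)| ≤ ∑ j, ∑ l, |h.tau ν mm j l| := by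
        refine (Finset.single_le_sum (f := fun l => |h.tau ν mm (label (parent y)) l|)
          (fun _ _ => abs_nonneg _) (Finset.mem_univ (label y))).trans ?_
        exact Finset.single_le_sum (f := fun j => ∑ l, |h.tau ν mm j l|)
          (fun _ _ => Finset.sum_nonneg fun _ _ => abs_nonneg _) (Finset.mem_univ (label (parent y)))
      have h4 : ‖cc root parent ν t y‖ ^ 2 ≤ ∑ j, ∑ l, |h.tau ν mm j l| := by
        rw [h2]
        exact (le_abs_self _).trans h3
      nlinarith [sq_nonneg (‖cc root parent ν t y‖ - 1), norm_nonneg (cc root parent ν t y)]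
    · unfold cc
      rw [if_neg hy, norm_zero]
      linarith
  hw := fun y => by
    have h1 : (0 : ℝ) ≤ ∑ j, ∑ l, |h.tau ν mm j l| :=
      Finset.sum_nonneg fun _ _ => Finset.sum_nonneg fun _ _ => abs_nonneg _
    have h2 : |m (label y)| ≤ ∑ j, |m j| :=
      Finset.single_le_sum (f := fun j => |m j|) (fun _ _ => abs_nonneg _)
        (Finset.mem_univ (label y))
    rw [ho.hw y]
    linarith
  hch := fun y hy => by
    refine (h.mem_ch _ _).2 ⟨?_, rfl⟩
    intro hr
    apply hy
    unfold cc
    rw [if_neg (not_not.2 hr)]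

theorem Raw.agree (h : Raw M root parent label) (ho : RawOp M root parent label ν t w mm m) :
    Agree (T := h.tr) ν t w (h.cf ho) where
  pos := ho.pos
  ne := fun x y => (ho.ne x y).1
  symm := ho.symm
  c := fun y hy => if_pos hy
  w := fun _ => rfl

theorem Raw.lb (h : Raw M root parent label) (ho : RawOp M root parent label ν t w mm m) :
    Lb (T := h.tr) (h.cf ho) label M (h.tau ν mm) m where
  card := h.card
  tau := by
    intro x y hy
    obtain ⟨h1, h2⟩ := (h.mem_ch x y).1 hy
    rw [← h2]
    exact cc_norm h ho h1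
  ne := by
    intro x y hy
    obtain ⟨h1, h2⟩ := (h.mem_ch x y).1 hy
    show cc root parent ν t y ≠ 0
    unfold cc
    rw [if_pos h1]
    apply mul_ne_zero
    · have := div_pos (Real.sqrt_pos.2 (ho.pos y)) (Real.sqrt_pos.2 (ho.pos (parent y)))
      exact_mod_cast this.ne'
    · rw [ho.ne]
      exact Or.inr ⟨h1, rfl⟩
  w := ho.hw
  surj := h.surj
  diag := h.diag

theorem final (h : Raw M root parent label) (ho : RawOp M root parent label ν t w mm m) (x : V) :
    (∀ z : ℂ, 0 < z.im → ∃! u, IsSol ν t w {y | ∃ n : ℕ, parent^[n] y = x} z x u) ∧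
    (∀ z : ℂ, 0 < z.im → ∃! u, IsSol ν t w Set.univ z x u) ∧
    HasBV (green ν t w {y | ∃ n : ℕ, parent^[n] y = x} x) ∧ HasBV (green ν t w Set.univ x) :=
  main_w (h.agree ho) (h.lb ho) x

end

end Pool.Agent.Q235.GF
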